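import Mathlib
import Pool.Agent.Lib_helper12.TwoVar

/-!
# Exponentials of pro-nilpotent operators on formal power series
-/

namespace Pool.RVX

open MvPowerSeries Finsupp Pool.Agent.Lib_helper12.FormalMaps

variable {n : ℕ}

/-- `D` respects the order filtration -/
def Filt (D : Module.End ℂ (Ser n)) : Prop := ∀ k, ∀ p ∈ J n k, D p ∈ J n k

/-- `D` is nilpotent on every jet space -/
def LN (D : Module.End ℂ (Ser n)) : Prop := ∀ k, ∃ r : ℕ, ∀ p, (D ^ r) p ∈ J n k

theorem Filt.pow {D : Module.End ℂ (Ser n)} (h : Filt D) (j : ℕ) : Filt (D ^ j) := by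
  induction j with
  | zero => intro k p hp; simpa using hp
  | succ j ih =>
    intro k p hp
    rw [pow_succ', Module.End.mul_apply]
    exact h k _ (ih k p hp)

theorem LN.ge {D : Module.End ℂ (Ser n)} (_h : Filt D) {k r : ℕ} (hr : ∀ p, (D ^ r) p ∈ J n k)
    {j : ℕ} (hj : r ≤ j) (p : Ser n) : (D ^ j) p ∈ J n k := by
  obtain ⟨i, rfl⟩ := Nat.exists_eq_add_of_le hj
  rw [pow_add, Module.End.mul_apply]
  exact hr _

/-! ### a vanishing principle -/

/-- a space of polynomials closed under derivation whose elements vanish at `0` is zero -/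
theorem poly_zero (M : Submodule ℂ (Polynomial ℂ)) (hd : ∀ P ∈ M, Polynomial.derivative P ∈ M)
    (h0 : ∀ P ∈ M, P.eval 0 = 0) : ∀ P ∈ M, P = 0 := by
  intro P hP
  have h1 : ∀ j : ℕ, (Polynomial.derivative^[j]) P ∈ M := by
    intro j
    induction j with
    | zero => exact hP
    | succ j ih =>
      rw [Function.iterate_succ_apply']
      exact hd _ ih
  ext j
  have h2 := h0 _ (h1 j)
  rw [← Polynomial.coeff_zero_eq_eval_zero, Polynomial.coeff_iterate_derivative, zero_add,
    Nat.descFactorial_self, nsmul_eq_mul] at h2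
  rw [Polynomial.coeff_zero]
  exact (mul_eq_zero.1 h2).resolve_left (by exact_mod_cast (Nat.factorial_pos j).ne')

theorem poly_zero' {α : Type*} (K : α → Polynomial ℂ)
    (hd : ∀ a, Polynomial.derivative (K a) ∈ Submodule.span ℂ (Set.range K))
    (h0 : ∀ a, (K a).eval 0 = 0) (a : α) : K a = 0 := by
  refine poly_zero (Submodule.span ℂ (Set.range K)) ?_ ?_ _ (Submodule.subset_span ⟨a, rfl⟩)
  · intro P hP
    induction hP using Submodule.span_induction with
    | mem x hx => obtain ⟨b, rfl⟩ := hx; exact hd b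
    | zero => rw [map_zero]; exact Submodule.zero_mem _
    | add x y _ _ hx hy => rw [map_add]; exact Submodule.add_mem _ hx hy
    | smul c x _ hx => rw [map_smul]; exact Submodule.smul_mem _ c hx
  · intro P hP
    induction hP using Submodule.span_induction with
    | mem x hx => obtain ⟨b, rfl⟩ := hx; exact h0 b
    | zero => simp
    | add x y _ _ hx hy => rw [Polynomial.eval_add, hx, hy, add_zero]
    | smul c x _ hx => rw [Polynomial.eval_smul, hx, smul_zero]

theorem poly_nat {P R : Polynomial ℂ} (h : ∀ m : ℕ, P.eval (m : ℂ) = R.eval (m : ℂ)) : P = R := by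
  apply Polynomial.eq_of_infinite_eval_eq
  apply Set.infinite_of_injective_forall_mem (f := fun m : ℕ => (m : ℂ)) Nat.cast_injective
  intro m
  exact h m

/-! ### the polynomials of the flow -/

/-- a bound for the nilpotency on jets -/
noncomputable def rr {D : Module.End ℂ (Ser n)} (h : LN D) (k : ℕ) : ℕ := Classical.choose (h k)

theorem rr_spec {D : Module.End ℂ (Ser n)} (h : LN D) (k : ℕ) (p : Ser n) :
    (D ^ rr h k) p ∈ J n k := Classical.choose_spec (h k) p

/-- the coefficient of `exp (t D) p` at `d` as a polynomial in `t` -/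
noncomputable def Rp {D : Module.End ℂ (Ser n)} (h : LN D) (p : Ser n) (d : Fin n →₀ ℕ) :
    Polynomial ℂ :=
  ∑ j ∈ Finset.range (rr h (degree d + 1)),
    Polynomial.monomial j ((j.factorial : ℂ)⁻¹ * coeff d ((D ^ j) p))

theorem coeff_pow_eq_zero {D : Module.End ℂ (Ser n)} (hF : Filt D) {k r : ℕ}
    (hr : ∀ p, (D ^ r) p ∈ J n k) {j : ℕ} (hj : r ≤ j) {d : Fin n →₀ ℕ} (hd : degree d < k)
    (p : Ser n) : coeff d ((D ^ j) p) = 0 :=
  mem_J_iff.1 (LN.ge hF hr hj p) d hd

theorem Rp_coeff {D : Module.End ℂ (Ser n)} (hF : Filt D) (h : LN D) (p : Ser n)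
    (d : Fin n →₀ ℕ) (j : ℕ) :
    (Rp h p d).coeff j = (j.factorial : ℂ)⁻¹ * coeff d ((D ^ j) p) := by
  rw [Rp, Polynomial.finsetSum_coeff]
  simp only [Polynomial.coeff_monomial]
  rw [Finset.sum_ite_eq']
  split_ifs with h1
  · rfl
  · rw [Finset.mem_range, not_lt] at h1
    rw [coeff_pow_eq_zero hF (rr_spec h (degree d + 1)) h1 (by omega) p, mul_zero]

theorem Rp_zero {D : Module.End ℂ (Ser n)} (hF : Filt D) (h : LN D) (p : Ser n)
    (d : Fin n →₀ ℕ) : (Rp h p d).eval 0 = coeff d p := by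
  rw [← Polynomial.coeff_zero_eq_eval_zero, Rp_coeff hF]
  simp

theorem Rp_deriv {D : Module.End ℂ (Ser n)} (hF : Filt D) (h : LN D) (p : Ser n)
    (d : Fin n →₀ ℕ) : Polynomial.derivative (Rp h p d) = Rp h (D p) d := by
  ext j
  rw [Polynomial.coeff_derivative, Rp_coeff hF, Rp_coeff hF, pow_succ, Module.End.mul_apply,
    Nat.factorial_succ]
  have h1 : ((j : ℂ) + 1) ≠ 0 := by exact_mod_cast Nat.succ_ne_zero j
  have h2 : (j.factorial : ℂ) ≠ 0 := by exact_mod_cast (Nat.factorial_pos j).ne'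
  push_cast
  field_simp

theorem Rp_add {D : Module.End ℂ (Ser n)} (hF : Filt D) (h : LN D) (p p' : Ser n)
    (d : Fin n →₀ ℕ) : Rp h (p + p') d = Rp h p d + Rp h p' d := by
  ext j
  rw [Polynomial.coeff_add, Rp_coeff hF, Rp_coeff hF, Rp_coeff hF, map_add, map_add, mul_add]

theorem Rp_smul {D : Module.End ℂ (Ser n)} (hF : Filt D) (h : LN D) (c : ℂ) (p : Ser n)
    (d : Fin n →₀ ℕ) : Rp h (c • p) d = c • Rp h p d := by
  ext j
  rw [Polynomial.coeff_smul, Rp_coeff hF, Rp_coeff hF, map_smul, map_smul, smul_eq_mul,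
    smul_eq_mul]
  ring

/-- `exp (t D)` -/
noncomputable def E {D : Module.End ℂ (Ser n)} (hF : Filt D) (h : LN D) (t : ℂ) :
    Module.End ℂ (Ser n) where
  toFun := fun p d => (Rp h p d).eval t
  map_add' := by
    intro p p'
    funext d
    show (Rp h (p + p') d).eval t = (Rp h p d).eval t + (Rp h p' d).eval t
    rw [Rp_add hF, Polynomial.eval_add]
  map_smul' := by
    intro c p
    funext d
    show (Rp h (c • p) d).eval t = c * (Rp h p d).eval t
    rw [Rp_smul hF, Polynomial.eval_smul, smul_eq_mul]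

theorem coeff_E {D : Module.End ℂ (Ser n)} (hF : Filt D) (h : LN D) (t : ℂ) (p : Ser n)
    (d : Fin n →₀ ℕ) : coeff d (E hF h t p) = (Rp h p d).eval t := rfl

theorem E_filt {D : Module.End ℂ (Ser n)} (hF : Filt D) (h : LN D) (t : ℂ) : Filt (E hF h t) := by
  intro k p hp
  rw [mem_J_iff]
  intro d hd
  rw [coeff_E]
  have : Rp h p d = 0 := by
    ext j
    rw [Rp_coeff hF, Polynomial.coeff_zero, mem_J_iff.1 (hF.pow j k p hp) d hd, mul_zero]
  rw [this, Polynomial.eval_zero]

/-- partial sums of the exponential series -/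
noncomputable def Ep (D : Module.End ℂ (Ser n)) (t : ℂ) (R : ℕ) (p : Ser n) : Ser n :=
  ∑ j ∈ Finset.range R, ((j.factorial : ℂ)⁻¹ * t ^ j) • (D ^ j) p

theorem E_approx {D : Module.End ℂ (Ser n)} (hF : Filt D) (h : LN D) (t : ℂ) {k r : ℕ}
    (hr : ∀ p, (D ^ r) p ∈ J n k) {R : ℕ} (hR : r < R) (p : Ser n) :
    E hF h t p - Ep D t R p ∈ J n k := by
  rw [mem_J_iff]
  intro d hd
  rw [map_sub, sub_eq_zero, coeff_E, Ep, map_sum]
  have h1 : (Rp h p d).natDegree < R := by
    refine lt_of_le_of_lt ?_ hR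
    rw [Polynomial.natDegree_le_iff_coeff_eq_zero]
    intro j hj
    rw [Rp_coeff hF, coeff_pow_eq_zero hF hr hj.le hd, mul_zero]
  rw [Polynomial.eval_eq_sum_range' h1]
  refine Finset.sum_congr rfl fun j _ => ?_
  rw [Rp_coeff hF, map_smul, smul_eq_mul]
  ring

theorem E_finsum {D : Module.End ℂ (Ser n)} (hF : Filt D) (h : LN D) (p : Ser n)
    (d : Fin n →₀ ℕ) :
    coeff d (E hF h 1 p) = ∑ᶠ j : ℕ, (j.factorial : ℂ)⁻¹ * coeff d ((D ^ j) p) := by
  rw [coeff_E]
  have h1 : (Rp h p d).natDegree < (Rp h p d).natDegree + 1 := Nat.lt_succ_self _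
  rw [Polynomial.eval_eq_sum_range' h1, finsum_eq_sum_of_support_subset (s := Finset.range _)]
  · refine Finset.sum_congr rfl fun j _ => ?_
    rw [Rp_coeff hF, one_pow, mul_one]
  · intro j hj
    rw [Function.mem_support, ← Rp_coeff hF h] at hj
    rw [Finset.coe_range, Set.mem_Iio, Nat.lt_succ_iff]
    exact Polynomial.le_natDegree_of_ne_zero hj

/-- intertwining -/
theorem E_intertwine {D D' : Module.End ℂ (Ser n)} (hF : Filt D) (h : LN D) (hF' : Filt D')
    (h' : LN D') (G : Module.End ℂ (Ser n)) (hG : Filt G) (hc : ∀ p, G (D p) = D' (G p)) (t : ℂ)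
    (p : Ser n) : G (E hF h t p) = E hF' h' t (G p) := by
  apply eq_of_forall_J
  intro k
  obtain ⟨r, hr⟩ := h k
  obtain ⟨r', hr'⟩ := h' k
  have h1 := hG k _ (E_approx hF h t hr (R := r + r' + 1) (by omega) p)
  have h2 := E_approx hF' h' t hr' (R := r + r' + 1) (by omega) (G p)
  have hpow : ∀ (j : ℕ) (p : Ser n), G ((D ^ j) p) = (D' ^ j) (G p) := by
    intro j
    induction j with
    | zero => intro p; simp
    | succ j ih =>
      intro p
      rw [pow_succ, Module.End.mul_apply, ih, hc, pow_succ, Module.End.mul_apply]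
  have h3 : G (Ep D t (r + r' + 1) p) = Ep D' t (r + r' + 1) (G p) := by
    rw [Ep, Ep, map_sum]
    refine Finset.sum_congr rfl fun j _ => ?_
    rw [map_smul, hpow]
  rw [map_sub, h3] at h1
  have := (J n k).sub_mem h1 h2
  rwa [sub_sub_sub_cancel_right] at this

theorem E_zero {D : Module.End ℂ (Ser n)} (hF : Filt D) (h : LN D) (p : Ser n) :
    E hF h 0 p = p := by
  ext d
  rw [coeff_E, Rp_zero hF]

theorem E_comm {D : Module.End ℂ (Ser n)} (hF : Filt D) (h : LN D) (t : ℂ) (p : Ser n) :
    D (E hF h t p) = E hF h t (D p) :=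
  E_intertwine hF h hF h D hF (fun _ => rfl) t p

/-- one-parameter group -/
theorem E_add {D : Module.End ℂ (Ser n)} (hF : Filt D) (h : LN D) (s t : ℂ) (p : Ser n) :
    E hF h s (E hF h t p) = E hF h (s + t) p := by
  ext d
  -- the polynomial of the left side in `t`
  let S : Ser n → Polynomial ℂ := fun p => ∑ j ∈ Finset.range (rr h (degree d + 1) + 1),
    Polynomial.monomial j ((j.factorial : ℂ)⁻¹ * coeff d (E hF h s ((D ^ j) p)))
  have hS : ∀ p (j : ℕ), (S p).coeff j = (j.factorial : ℂ)⁻¹ * coeff d (E hF h s ((D ^ j) p)) := by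
    intro p j
    show (∑ j ∈ Finset.range (rr h (degree d + 1) + 1),
      Polynomial.monomial j ((j.factorial : ℂ)⁻¹ * coeff d (E hF h s ((D ^ j) p)))).coeff j = _
    rw [Polynomial.finsetSum_coeff]
    simp only [Polynomial.coeff_monomial]
    rw [Finset.sum_ite_eq']
    split_ifs with h1
    · rfl
    · rw [Finset.mem_range, not_lt] at h1
      have h2 := E_filt hF h s _ _ (LN.ge hF (rr_spec h (degree d + 1)) (show _ ≤ j by omega) p)
      rw [mem_J_iff.1 h2 d (by omega), mul_zero]
  have hS' : ∀ p t, (S p).eval t = coeff d (E hF h s (E hF h t p)) := by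
    intro p t
    have h1 := E_filt hF h s _ _ (E_approx hF h t (rr_spec h (degree d + 1))
      (Nat.lt_succ_self _) p)
    have h2 := mem_J_iff.1 h1 d (by omega)
    rw [map_sub, map_sub, sub_eq_zero] at h2
    rw [h2, Ep, map_sum, map_sum]
    show (∑ j ∈ Finset.range (rr h (degree d + 1) + 1),
      Polynomial.monomial j ((j.factorial : ℂ)⁻¹ * coeff d (E hF h s ((D ^ j) p)))).eval t = _
    rw [Polynomial.eval_finsetSum]
    refine Finset.sum_congr rfl fun j _ => ?_
    rw [Polynomial.eval_monomial, map_smul, map_smul, smul_eq_mul]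
    ring
  have key := poly_zero' (fun p : Ser n => S p - (Rp h p d).comp (Polynomial.X + Polynomial.C s))
    (by
      intro p
      apply Submodule.subset_span
      refine ⟨D p, ?_⟩
      dsimp only
      rw [map_sub, Polynomial.derivative_comp, Rp_deriv hF, map_add, Polynomial.derivative_X,
        Polynomial.derivative_C, add_zero, one_mul]
      congr 1
      ext j
      rw [Polynomial.coeff_derivative, hS, hS, pow_succ, Module.End.mul_apply,
        Nat.factorial_succ]
      have h1 : ((j : ℂ) + 1) ≠ 0 := by exact_mod_cast Nat.succ_ne_zero j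
      have h2 : (j.factorial : ℂ) ≠ 0 := by exact_mod_cast (Nat.factorial_pos j).ne'
      push_cast
      field_simp)
    (by
      intro p
      rw [Polynomial.eval_sub, hS', E_zero, Polynomial.eval_comp, Polynomial.eval_add,
        Polynomial.eval_X, Polynomial.eval_C, zero_add, coeff_E, sub_self]) p
  have h1 := congrArg (Polynomial.eval t) key
  rw [Polynomial.eval_sub, hS', Polynomial.eval_comp, Polynomial.eval_add,
    Polynomial.eval_X, Polynomial.eval_C, Polynomial.eval_zero, sub_eq_zero] at h1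
  rw [h1, coeff_E, add_comm]

theorem E_nat {D : Module.End ℂ (Ser n)} (hF : Filt D) (h : LN D) (m : ℕ) (p : Ser n) :
    E hF h (m : ℂ) p = ((E hF h 1) ^ m) p := by
  induction m with
  | zero => rw [Nat.cast_zero, E_zero, pow_zero, Module.End.one_apply]
  | succ m ih =>
    rw [Nat.cast_succ, add_comm, ← E_add, ih, pow_succ', Module.End.mul_apply]

/-- the exponential determines the operator -/
theorem E_inj {D D' : Module.End ℂ (Ser n)} (hF : Filt D) (h : LN D) (hF' : Filt D')
    (h' : LN D') (he : ∀ p, E hF h 1 p = E hF' h' 1 p) (p : Ser n) : D p = D' p := by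
  have he' : E hF h 1 = E hF' h' 1 := LinearMap.ext he
  ext d
  have h1 : Rp h p d = Rp h' p d := by
    apply poly_nat
    intro m
    rw [← coeff_E hF h, ← coeff_E hF' h', E_nat, E_nat, he']
  have h2 : (Rp h p d).coeff 1 = (Rp h' p d).coeff 1 := by rw [h1]
  rw [Rp_coeff hF, Rp_coeff hF'] at h2
  simpa using h2

end Pool.RVX
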