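import Mathlib
import Pool.Agent.RVX.Flow

/-!
# Formal vector fields and their exponentials
-/

namespace Pool.RVX

open MvPowerSeries Finsupp Pool.Agent.Lib_helper12.FormalMaps

variable {n : ℕ}

/-- the Leibniz rule -/
def IsDer (D : Module.End ℂ (Ser n)) : Prop := ∀ a b, D (a * b) = a * D b + b * D a

/-- the derivation of a vector field -/
noncomputable def vfL (V : Fin n → Ser n) : Module.End ℂ (Ser n) :=
  ∑ i, (LinearMap.mulLeft ℂ (V i)) ∘ₗ ((pderiv ℂ i : Derivation ℂ (Ser n) (Ser n)) : Ser n →ₗ[ℂ] Ser n)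

theorem vfL_apply (V : Fin n → Ser n) (p : Ser n) : vfL V p = ∑ i, V i * pderiv ℂ i p := by
  rw [vfL, LinearMap.sum_apply]
  rfl

theorem vfL_X (V : Fin n → Ser n) (i : Fin n) : vfL V (X i) = V i := by
  rw [vfL_apply, Finset.sum_eq_single i]
  · rw [pderiv_X_self, mul_one]
  · intro j _ hj
    rw [pderiv_X_of_ne hj.symm, mul_zero]
  · simp

theorem vfL_der (V : Fin n → Ser n) : IsDer (vfL V) := by
  intro a b
  rw [vfL_apply, vfL_apply, vfL_apply, Finset.mul_sum, Finset.mul_sum, ← Finset.sum_add_distrib]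
  refine Finset.sum_congr rfl fun i _ => ?_
  rw [Derivation.leibniz, smul_eq_mul, smul_eq_mul]
  ring

theorem pderiv_J {k : ℕ} {p : Ser n} (hp : p ∈ J n (k + 1)) (i : Fin n) :
    pderiv ℂ i p ∈ J n k := by
  rw [mem_J_iff] at *
  intro d hd
  rw [coeff_pderiv, hp, zero_mul]
  rw [map_add, degree_single]
  omega

theorem vfL_filt {V : Fin n → Ser n} (hV : NC V) : Filt (vfL V) := by
  intro k p hp
  rcases k with _ | k
  · rw [mem_J_iff]; intro d hd; omega
  · rw [vfL_apply]
    apply (J n _).sum_mem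
    intro i _
    have := J_mul (mem_J_one.2 (hV i)) (pderiv_J hp i)
    rwa [add_comm 1 k] at this

theorem IsDer.one {D : Module.End ℂ (Ser n)} (hD : IsDer D) : D 1 = 0 := by
  have h := hD 1 1
  rw [mul_one, one_mul] at h
  simpa using h

/-- the exponential of a derivation is multiplicative -/
theorem E_mul {D : Module.End ℂ (Ser n)} (hF : Filt D) (h : LN D) (hD : IsDer D) (t : ℂ)
    (a b : Ser n) : E hF h t (a * b) = E hF h t a * E hF h t b := by
  classical
  ext d
  have key := poly_zero' (fun x : Ser n × Ser n => Rp h (x.1 * x.2) d -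
      ∑ e ∈ Finset.HasAntidiagonal.antidiagonal d, Rp h x.1 e.1 * Rp h x.2 e.2)
    (by
      rintro ⟨a, b⟩
      dsimp only
      have e1 : Polynomial.derivative (Rp h (a * b) d -
          ∑ e ∈ Finset.HasAntidiagonal.antidiagonal d, Rp h a e.1 * Rp h b e.2) =
          (Rp h (D a * b) d - ∑ e ∈ Finset.HasAntidiagonal.antidiagonal d, Rp h (D a) e.1 * Rp h b e.2) +
          (Rp h (a * D b) d - ∑ e ∈ Finset.HasAntidiagonal.antidiagonal d, Rp h a e.1 * Rp h (D b) e.2) := by
        rw [map_sub, Rp_deriv hF, hD, Rp_add hF, map_sum, mul_comm b (D a)]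
        have : ∀ e ∈ Finset.HasAntidiagonal.antidiagonal d, Polynomial.derivative (Rp h a e.1 * Rp h b e.2) =
            Rp h (D a) e.1 * Rp h b e.2 + Rp h a e.1 * Rp h (D b) e.2 := by
          intro e _
          rw [Polynomial.derivative_mul, Rp_deriv hF, Rp_deriv hF]
        rw [Finset.sum_congr rfl this, Finset.sum_add_distrib]
        ring
      rw [e1]
      exact Submodule.add_mem _ (Submodule.subset_span ⟨(D a, b), rfl⟩)
        (Submodule.subset_span ⟨(a, D b), rfl⟩))
    (by
      rintro ⟨a, b⟩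
      dsimp only
      rw [Polynomial.eval_sub, Rp_zero hF, Polynomial.eval_finsetSum, coeff_mul, sub_eq_zero]
      refine Finset.sum_congr rfl fun e _ => ?_
      rw [Polynomial.eval_mul, Rp_zero hF, Rp_zero hF]) (a, b)
  have h1 := congrArg (Polynomial.eval t) key
  dsimp only at h1
  rw [Polynomial.eval_sub, Polynomial.eval_zero, sub_eq_zero, Polynomial.eval_finsetSum] at h1
  rw [coeff_E, h1, coeff_mul]
  refine Finset.sum_congr rfl fun e _ => ?_
  rw [Polynomial.eval_mul, coeff_E, coeff_E]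

theorem E_one {D : Module.End ℂ (Ser n)} (hF : Filt D) (h : LN D) (hD : IsDer D) (t : ℂ) :
    E hF h t 1 = 1 := by
  ext d
  rw [coeff_E]
  have h1 : Polynomial.derivative (Rp h 1 d) = 0 := by
    rw [Rp_deriv hF, hD.one]
    ext j
    rw [Rp_coeff hF, map_zero, map_zero, mul_zero, Polynomial.coeff_zero]
  have h2 := Polynomial.eq_C_of_derivative_eq_zero h1
  rw [h2, Polynomial.eval_C, Polynomial.coeff_zero_eq_eval_zero, Rp_zero hF]

/-- the exponential of a derivation as an algebra endomorphism -/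
noncomputable def Ealg {D : Module.End ℂ (Ser n)} (hF : Filt D) (h : LN D) (hD : IsDer D) (t : ℂ) :
    Ser n →ₐ[ℂ] Ser n :=
  AlgHom.ofLinearMap (E hF h t) (E_one hF h hD t) (E_mul hF h hD t)

theorem Ealg_apply {D : Module.End ℂ (Ser n)} (hF : Filt D) (h : LN D) (hD : IsDer D) (t : ℂ)
    (p : Ser n) : Ealg hF h hD t p = E hF h t p := rfl

theorem E_subst {D : Module.End ℂ (Ser n)} (hF : Filt D) (h : LN D) (hD : IsDer D) (t : ℂ)
    (p : Ser n) : E hF h t p = subst (fun i => E hF h t (X i)) p :=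
  eq_subst (Ealg hF h hD t) (E_filt hF h t) p

theorem E_NC {D : Module.End ℂ (Ser n)} (hF : Filt D) (h : LN D) (t : ℂ) :
    NC (fun i => E hF h t (X i)) := by
  intro i
  rw [← mem_J_one]
  apply E_filt
  rw [mem_J_one]
  simp

/-- the formal map `exp (t D)` -/
noncomputable def Emap {D : Module.End ℂ (Ser n)} (hF : Filt D) (h : LN D) (hD : IsDer D) (t : ℂ) :
    FMap n where
  toFun := fun i => E hF h t (X i)
  const := E_NC hF h t
  det := by
    have h1 : lin (fun i => E hF h t (X i)) * lin (fun i => E hF h (-t) (X i)) = 1 := by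
      rw [← lin_subst (E_NC hF h t) (E_NC hF h (-t)), ← lin_X]
      congr 1
      funext i
      rw [← E_subst hF h hD, E_add, neg_add_cancel, E_zero]
    intro h2
    have h3 := congrArg Matrix.det h1
    rw [Matrix.det_mul, h2, zero_mul, Matrix.det_one] at h3
    exact zero_ne_one h3

theorem T_Emap {D : Module.End ℂ (Ser n)} (hF : Filt D) (h : LN D) (hD : IsDer D) (t : ℂ)
    (p : Ser n) : T (Emap hF h hD t) p = E hF h t p := by
  rw [T_apply, E_subst hF h hD]
  rfl

/-- two derivations that respect the filtration and agree on the variables are equal -/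
theorem der_ext {D D' : Module.End ℂ (Ser n)} (hF : Filt D) (hF' : Filt D') (hD : IsDer D)
    (hD' : IsDer D') (hX : ∀ i, D (X i) = D' (X i)) (p : Ser n) : D p = D' p := by
  have hpoly : ∀ p : MvPolynomial (Fin n) ℂ, D (p : Ser n) = D' (p : Ser n) := by
    intro p
    induction p using MvPolynomial.induction_on with
    | C a =>
      have : ((MvPolynomial.C a : MvPolynomial (Fin n) ℂ) : Ser n) = a • (1 : Ser n) := by
        rw [MvPolynomial.coe_C, MvPowerSeries.smul_eq_C_mul, mul_one]
      rw [this, map_smul, map_smul, hD.one, hD'.one]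
    | add p q hp hq => rw [MvPolynomial.coe_add, map_add, map_add, hp, hq]
    | mul_X p i hp => rw [MvPolynomial.coe_mul, MvPolynomial.coe_X, hD, hD', hp, hX]
  apply eq_of_forall_J
  intro k
  have e : D p - D' p = D (p - ((truncTotal k p : MvPolynomial (Fin n) ℂ) : Ser n)) -
      D' (p - ((truncTotal k p : MvPolynomial (Fin n) ℂ) : Ser n)) := by
    rw [map_sub, map_sub, hpoly]; ring
  rw [e]
  exact (J n k).sub_mem (hF k _ (trunc_sub_mem k p)) (hF' k _ (trunc_sub_mem k p))

/-! ### nilpotent linear part -/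

theorem nilp_mul {D : Module.End ℂ (Ser n)} (hF : Filt D) (hD : IsDer D) {k l : ℕ} : ∀ (N a b : ℕ)
    (p q : Ser n), a + b ≤ N → p ∈ J n k → q ∈ J n l → (D ^ a) p ∈ J n (k + 1) →
    (D ^ b) q ∈ J n (l + 1) → (D ^ N) (p * q) ∈ J n (k + l + 1) := by
  intro N
  induction N with
  | zero =>
    intro a b p q hab hp hq ha hb
    obtain ⟨rfl, rfl⟩ : a = 0 ∧ b = 0 := by omega
    rw [pow_zero, Module.End.one_apply] at ha ⊢
    have := J_mul ha hq
    rwa [show k + 1 + l = k + l + 1 by ring] at this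
  | succ N ih =>
    intro a b p q hab hp hq ha hb
    rw [pow_succ, Module.End.mul_apply, hD, map_add]
    apply (J n _).add_mem
    · rcases b with _ | b
      · rw [pow_zero, Module.End.one_apply] at hb
        apply hF.pow
        have := J_mul hp (hF _ _ hb)
        rwa [show k + (l + 1) = k + l + 1 by ring] at this
      · rw [pow_succ, Module.End.mul_apply] at hb
        exact ih a b p (D q) (by omega) hp (hF _ _ hq) ha hb
    · rw [mul_comm]
      rcases a with _ | a
      · rw [pow_zero, Module.End.one_apply] at ha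
        apply hF.pow
        have := J_mul (hF _ _ ha) hq
        rwa [show k + 1 + l = k + l + 1 by ring] at this
      · rw [pow_succ, Module.End.mul_apply] at ha
        exact ih a b (D p) q (by omega) (hF _ _ hp) hq ha hb

theorem mon_J (d : Fin n →₀ ℕ) : (monomial d (1 : ℂ) : Ser n) ∈ J n (degree d) := by
  rw [mem_J_iff]
  intro e he
  rw [coeff_monomial, if_neg]
  rintro rfl
  exact lt_irrefl _ he

theorem nilp_mon {D : Module.End ℂ (Ser n)} (hF : Filt D) (hD : IsDer D)
    (hX : ∀ i, ∃ r : ℕ, (D ^ r) (X i) ∈ J n 2) (d : Fin n →₀ ℕ) :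
    ∃ r : ℕ, (D ^ r) (monomial d (1 : ℂ)) ∈ J n (degree d + 1) := by
  have h0 : ∃ r : ℕ, (D ^ r) (monomial (0 : Fin n →₀ ℕ) (1 : ℂ)) ∈
      J n (degree (0 : Fin n →₀ ℕ) + 1) := by
    refine ⟨1, ?_⟩
    rw [pow_one, monomial_zero_one, hD.one]
    exact (J n _).zero_mem
  have hadd : ∀ a b : Fin n →₀ ℕ, (∃ r : ℕ, (D ^ r) (monomial a (1 : ℂ)) ∈ J n (degree a + 1)) →
      (∃ r : ℕ, (D ^ r) (monomial b (1 : ℂ)) ∈ J n (degree b + 1)) →
      ∃ r : ℕ, (D ^ r) (monomial (a + b) (1 : ℂ)) ∈ J n (degree (a + b) + 1) := by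
    rintro a b ⟨r, hr⟩ ⟨s, hs⟩
    have e : (monomial (a + b) (1 : ℂ) : Ser n) = monomial a 1 * monomial b 1 := by
      rw [monomial_mul_monomial, one_mul]
    refine ⟨r + s, ?_⟩
    rw [e, map_add]
    exact nilp_mul hF hD (r + s) r s _ _ le_rfl (mon_J a) (mon_J b) hr hs
  induction d using Finsupp.induction_linear with
  | zero => exact h0
  | add a b ha hb => exact hadd a b ha hb
  | single i m =>
    induction m with
    | zero => rw [Finsupp.single_zero]; exact h0
    | succ m ih =>
      rw [Finsupp.single_add]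
      apply hadd _ _ ih
      obtain ⟨r, hr⟩ := hX i
      refine ⟨r, ?_⟩
      rw [degree_single]
      exact hr

theorem nilp_step {D : Module.End ℂ (Ser n)} (hF : Filt D) (hD : IsDer D)
    (hX : ∀ i, ∃ r : ℕ, (D ^ r) (X i) ∈ J n 2) (k : ℕ) :
    ∃ r : ℕ, ∀ p ∈ J n k, (D ^ r) p ∈ J n (k + 1) := by
  classical
  choose r hr using nilp_mon hF hD hX
  have hfin : {d : Fin n →₀ ℕ | degree d < k + 1}.Finite := finite_of_degree_lt (k + 1)
  refine ⟨∑ d ∈ hfin.toFinset, r d, ?_⟩
  intro p hp
  set R := ∑ d ∈ hfin.toFinset, r d with hR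
  have h1 : p - ((truncTotal (k + 1) p : MvPolynomial (Fin n) ℂ) : Ser n) ∈ J n (k + 1) :=
    trunc_sub_mem (k + 1) p
  have h2 : (D ^ R) ((truncTotal (k + 1) p : MvPolynomial (Fin n) ℂ) : Ser n) ∈
      J n (k + 1) := by
    set s := (truncTotal (k + 1) p : MvPolynomial (Fin n) ℂ) with hs
    have hsum : (s : Ser n) = ∑ d ∈ s.support, (s.coeff d) • (monomial d (1 : ℂ) : Ser n) := by
      conv_lhs => rw [MvPolynomial.as_sum s]
      rw [← MvPolynomial.coeToMvPowerSeries.ringHom_apply, map_sum]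
      refine Finset.sum_congr rfl fun d _ => ?_
      rw [MvPolynomial.coeToMvPowerSeries.ringHom_apply, MvPolynomial.coe_monomial]
      rw [← map_smul, smul_eq_mul, mul_one]
    rw [hsum, map_sum]
    apply (J n _).sum_mem
    intro d hd
    rw [map_smul]
    apply J_smul
    have hdk : degree d = k := by
      rw [MvPolynomial.mem_support_iff] at hd
      by_contra hne
      apply hd
      rw [hs, coeff_truncTotal_eq_ite]
      split_ifs with hlt
      · exact mem_J_iff.1 hp d (by omega)
      · rfl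
    have hle : r d ≤ R := by
      rw [hR]
      apply Finset.single_le_sum (f := r) (fun _ _ => Nat.zero_le _)
      rw [Set.Finite.mem_toFinset, Set.mem_ofPred_eq]
      omega
    obtain ⟨j, hj⟩ := Nat.exists_eq_add_of_le' hle
    rw [hj, pow_add, Module.End.mul_apply]
    apply hF.pow
    have := hr d
    rwa [hdk] at this
  have e : (D ^ R) p = (D ^ R) (p - ((truncTotal (k + 1) p : MvPolynomial (Fin n) ℂ) : Ser n)) +
      (D ^ R) ((truncTotal (k + 1) p : MvPolynomial (Fin n) ℂ) : Ser n) := by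
    rw [← map_add]; congr 1; ring
  rw [e]
  exact (J n _).add_mem (hF.pow R _ _ h1) h2

theorem LN_of_X {D : Module.End ℂ (Ser n)} (hF : Filt D) (hD : IsDer D)
    (hX : ∀ i, ∃ r : ℕ, (D ^ r) (X i) ∈ J n 2) : LN D := by
  intro k
  induction k with
  | zero => exact ⟨0, fun p => by rw [mem_J_iff]; intro d hd; omega⟩
  | succ k ih =>
    obtain ⟨r, hr⟩ := ih
    obtain ⟨s, hs⟩ := nilp_step hF hD hX k
    refine ⟨s + r, fun p => ?_⟩
    rw [pow_add, Module.End.mul_apply]
    exact hs _ (hr p)

/-- powers of the derivation on the variables modulo `J 2` -/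
theorem pow_X_lin {V : Fin n → Ser n} (hV : NC V) (r : ℕ) (i : Fin n) :
    (vfL V ^ r) (X i) - ∑ j, ((lin V) ^ r) i j • (X j : Ser n) ∈ J n 2 := by
  induction r generalizing i with
  | zero =>
    rw [pow_zero, pow_zero, Module.End.one_apply]
    have : ∑ j, (1 : Matrix (Fin n) (Fin n) ℂ) i j • (X j : Ser n) = X i := by
      simp [Matrix.one_apply]
    rw [this, sub_self]
    exact (J n _).zero_mem
  | succ r ih =>
    rw [pow_succ, Module.End.mul_apply, vfL_X]
    have h1 := lin_decomp (hV i)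
    have h2 := (vfL_filt hV).pow r _ _ h1
    rw [map_sub, map_sum] at h2
    have h3 : ∑ j, (vfL V ^ r) (coeff (single j 1) (V i) • (X j : Ser n)) -
        ∑ j, ((lin V) ^ (r + 1)) i j • (X j : Ser n) ∈ J n 2 := by
      have e : ∑ j, ((lin V) ^ (r + 1)) i j • (X j : Ser n) =
          ∑ j, coeff (single j 1) (V i) • ∑ l, ((lin V) ^ r) j l • (X l : Ser n) := by
        rw [pow_succ']
        simp only [Matrix.mul_apply, Finset.sum_smul, Finset.smul_sum, smul_smul]
        rw [Finset.sum_comm]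
        rfl
      rw [e, ← Finset.sum_sub_distrib]
      apply (J n _).sum_mem
      intro j _
      rw [map_smul, ← smul_sub]
      exact J_smul _ (ih j)
    have := (J n 2).add_mem h2 h3
    rwa [sub_add_sub_cancel] at this

theorem LN_vfL {V : Fin n → Ser n} (hV : NC V) (hN : IsNilpotent (lin V)) : LN (vfL V) := by
  apply LN_of_X (vfL_filt hV) (vfL_der V)
  intro i
  obtain ⟨r, hr⟩ := hN
  refine ⟨r, ?_⟩
  have h1 := pow_X_lin hV r i
  rw [hr] at h1
  simpa using h1

theorem lin_nilp {V : Fin n → Ser n} (hV : NC V) (h : LN (vfL V)) : IsNilpotent (lin V) := by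
  obtain ⟨r, hr⟩ := h 2
  refine ⟨r, ?_⟩
  ext i j
  have h1 := (J n 2).sub_mem (hr (X i)) (pow_X_lin hV r i)
  rw [sub_sub_cancel] at h1
  have h2 := mem_J_iff.1 h1 (single j 1) (by rw [degree_single]; norm_num)
  rw [map_sum, Finset.sum_eq_single j] at h2
  · rw [map_smul, coeff_X, if_pos rfl, smul_eq_mul, mul_one] at h2
    rw [h2]; rfl
  · intro b _ hb
    rw [map_smul, coeff_X, if_neg, smul_zero]
    intro h1
    exact hb (Finsupp.single_left_injective one_ne_zero h1).symm
  · simp

end Pool.RVX
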