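import Mathlib
import Pool.Agent.RVX.Der

/-!
# Logarithms of unipotent formal maps
-/

namespace Pool.RVX

open MvPowerSeries Finsupp Pool.Agent.Lib_helper12.FormalMaps

variable {n : ℕ}

/-- the binomial coefficient polynomial -/
noncomputable def Bp (j : ℕ) : Polynomial ℂ := (j.factorial : ℂ)⁻¹ • descPochhammer ℂ j

theorem Bp_eval (j m : ℕ) : (Bp j).eval (m : ℂ) = (m.choose j : ℂ) := by
  rw [Bp, Polynomial.eval_smul, descPochhammer_eval_eq_descFactorial,
    Nat.descFactorial_eq_factorial_mul_choose, smul_eq_mul, Nat.cast_mul, ← mul_assoc,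
    inv_mul_cancel₀, one_mul]
  exact_mod_cast (Nat.factorial_pos j).ne'

theorem Bp_natDegree (j : ℕ) : (Bp j).natDegree ≤ j := by
  refine (Polynomial.natDegree_smul_le _ _).trans ?_
  rw [descPochhammer_natDegree]

/-- coefficient of `(1+N)^t p` at `d` as a polynomial in `t` -/
noncomputable def Pp {N : Module.End ℂ (Ser n)} (h : LN N) (p : Ser n) (d : Fin n →₀ ℕ) :
    Polynomial ℂ :=
  ∑ j ∈ Finset.range (rr h (degree d + 1)), (coeff d ((N ^ j) p)) • Bp j

theorem Pp_eq_sum {N : Module.End ℂ (Ser n)} (hF : Filt N) (h : LN N) {k r R : ℕ}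
    (hr : ∀ p, (N ^ r) p ∈ J n k) (hR : r ≤ R) {d : Fin n →₀ ℕ} (hd : degree d < k) (p : Ser n) :
    Pp h p d = ∑ j ∈ Finset.range R, (coeff d ((N ^ j) p)) • Bp j := by
  have h1 : ∀ j, R ≤ j → coeff d ((N ^ j) p) = 0 := fun j hj =>
    coeff_pow_eq_zero hF hr (hR.trans hj) hd p
  have h2 : ∀ j, rr h (degree d + 1) ≤ j → coeff d ((N ^ j) p) = 0 := fun j hj =>
    coeff_pow_eq_zero hF (rr_spec h (degree d + 1)) hj (by omega) p
  have h3 : ∑ j ∈ Finset.range R, (coeff d ((N ^ j) p)) • Bp j =
      ∑ j ∈ Finset.range (R + rr h (degree d + 1)), (coeff d ((N ^ j) p)) • Bp j := by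
    apply Finset.sum_subset
    · intro j hj; rw [Finset.mem_range] at *; omega
    · intro j _ hj
      rw [Finset.mem_range, not_lt] at hj
      rw [h1 j hj, zero_smul]
  rw [h3, Pp]
  apply Finset.sum_subset
  · intro j hj; rw [Finset.mem_range] at *; omega
  · intro j _ hj
    rw [Finset.mem_range, not_lt] at hj
    rw [h2 j hj, zero_smul]

theorem Pp_nat {N : Module.End ℂ (Ser n)} (hF : Filt N) (h : LN N) (p : Ser n)
    (d : Fin n →₀ ℕ) (m : ℕ) : (Pp h p d).eval (m : ℂ) = coeff d (((N + 1) ^ m) p) := by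
  have h0 := rr_spec h (degree d + 1)
  rw [Pp_eq_sum hF h (R := rr h (degree d + 1) + (m + 1)) h0 (Nat.le_add_right _ _)
    (Nat.lt_succ_self _) p, (Commute.one_right N).add_pow, LinearMap.sum_apply, map_sum,
    Polynomial.eval_finsetSum]
  have h1 : ∀ j, (1 : Module.End ℂ (Ser n)) ^ (m - j) = 1 := fun j => one_pow _
  simp only [h1, mul_one, Polynomial.eval_smul, Bp_eval, smul_eq_mul]
  have h2 : ∀ j, coeff d ((N ^ j * (m.choose j : Module.End ℂ (Ser n))) p) =
      coeff d ((N ^ j) p) * (m.choose j : ℂ) := by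
    intro j
    rw [(Nat.cast_commute (m.choose j) (N ^ j)).symm.eq, Module.End.mul_apply]
    have : ((m.choose j : ℕ) : Module.End ℂ (Ser n)) ((N ^ j) p) =
        ((m.choose j : ℕ) : ℂ) • (N ^ j) p := by
      rw [← Nat.smul_one_eq_cast, LinearMap.smul_apply, Module.End.one_apply, Nat.cast_smul_eq_nsmul]
    rw [this, map_smul, smul_eq_mul, mul_comm]
  simp only [h2]
  symm
  apply Finset.sum_subset
  · intro j hj; rw [Finset.mem_range] at *; omega
  · intro j _ hj
    rw [Finset.mem_range, not_lt] at hj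
    rw [Nat.choose_eq_zero_of_lt (by omega), Nat.cast_zero, mul_zero]

theorem Pp_zero {N : Module.End ℂ (Ser n)} (hF : Filt N) (h : LN N) (p : Ser n)
    (d : Fin n →₀ ℕ) : (Pp h p d).eval 0 = coeff d p := by
  have := Pp_nat hF h p d 0
  rwa [Nat.cast_zero, pow_zero, Module.End.one_apply] at this

/-- the logarithm of `1 + N` -/
noncomputable def Lg {N : Module.End ℂ (Ser n)} (h : LN N) : Module.End ℂ (Ser n) where
  toFun := fun p d => (Polynomial.derivative (Pp h p d)).eval 0
  map_add' := by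
    intro p p'
    funext d
    show (Polynomial.derivative (Pp h (p + p') d)).eval 0 =
      (Polynomial.derivative (Pp h p d)).eval 0 + (Polynomial.derivative (Pp h p' d)).eval 0
    rw [← Polynomial.eval_add, ← map_add]
    congr 2
    rw [Pp, Pp, Pp, ← Finset.sum_add_distrib]
    refine Finset.sum_congr rfl fun j _ => ?_
    rw [map_add, map_add, add_smul]
  map_smul' := by
    intro c p
    funext d
    show (Polynomial.derivative (Pp h (c • p) d)).eval 0 =
      c * (Polynomial.derivative (Pp h p d)).eval 0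
    rw [← smul_eq_mul, ← Polynomial.eval_smul, ← map_smul]
    congr 2
    rw [Pp, Pp, Finset.smul_sum]
    refine Finset.sum_congr rfl fun j _ => ?_
    rw [map_smul, map_smul, smul_eq_mul, mul_smul]

theorem coeff_Lg {N : Module.End ℂ (Ser n)} (h : LN N) (p : Ser n) (d : Fin n →₀ ℕ) :
    coeff d (Lg h p) = (Polynomial.derivative (Pp h p d)).eval 0 := rfl

theorem Lg_filt {N : Module.End ℂ (Ser n)} (hF : Filt N) (h : LN N) : Filt (Lg h) := by
  intro k p hp
  rw [mem_J_iff]
  intro d hd
  rw [coeff_Lg]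
  have : Pp h p d = 0 := by
    rw [Pp]
    refine Finset.sum_eq_zero fun j _ => ?_
    rw [mem_J_iff.1 (hF.pow j k p hp) d hd, zero_smul]
  rw [this, map_zero, Polynomial.eval_zero]

theorem Lg_approx {N : Module.End ℂ (Ser n)} (hF : Filt N) (h : LN N) {k r : ℕ}
    (hr : ∀ p, (N ^ r) p ∈ J n k) (p : Ser n) :
    Lg h p - ∑ j ∈ Finset.range r, ((Polynomial.derivative (Bp j)).eval 0) • (N ^ j) p ∈
      J n k := by
  rw [mem_J_iff]
  intro d hd
  rw [map_sub, sub_eq_zero, coeff_Lg, Pp_eq_sum hF h hr le_rfl hd, map_sum, map_sum,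
    Polynomial.eval_finsetSum]
  refine Finset.sum_congr rfl fun j _ => ?_
  rw [map_smul, map_smul, Polynomial.eval_smul, smul_eq_mul, smul_eq_mul,
    mul_comm]

theorem Lg_comm {N : Module.End ℂ (Ser n)} (hF : Filt N) (h : LN N) (p : Ser n) :
    Lg h ((N + 1) p) = (N + 1) (Lg h p) := by
  apply eq_of_forall_J
  intro k
  obtain ⟨r, hr⟩ := h k
  have hF1 : Filt (N + 1) := by
    intro k p hp
    rw [LinearMap.add_apply, Module.End.one_apply]
    exact (J n k).add_mem (hF k p hp) hp
  have h1 := Lg_approx hF h hr ((N + 1) p)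
  have h2 := hF1 k _ (Lg_approx hF h hr p)
  have h3 : (N + 1) (∑ j ∈ Finset.range r, ((Polynomial.derivative (Bp j)).eval 0) • (N ^ j) p) =
      ∑ j ∈ Finset.range r, ((Polynomial.derivative (Bp j)).eval 0) • (N ^ j) ((N + 1) p) := by
    rw [map_sum]
    refine Finset.sum_congr rfl fun j _ => ?_
    rw [map_smul]
    congr 1
    have hc : Commute (N ^ j) (N + 1) :=
      (Commute.pow_self N j).add_right (Commute.one_right _)
    have := LinearMap.congr_fun hc.eq p
    rw [Module.End.mul_apply, Module.End.mul_apply] at this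
    exact this.symm
  rw [map_sub, h3] at h2
  have := (J n k).sub_mem h1 h2
  rwa [sub_sub_sub_cancel_right] at this

theorem Lg_comm_pow {N : Module.End ℂ (Ser n)} (hF : Filt N) (h : LN N) (m : ℕ) (p : Ser n) :
    Lg h (((N + 1) ^ m) p) = ((N + 1) ^ m) (Lg h p) := by
  induction m generalizing p with
  | zero => simp
  | succ m ih =>
    rw [pow_succ, Module.End.mul_apply, ih, Lg_comm hF, Module.End.mul_apply]

theorem Pp_deriv {N : Module.End ℂ (Ser n)} (hF : Filt N) (h : LN N) (p : Ser n)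
    (d : Fin n →₀ ℕ) : Polynomial.derivative (Pp h p d) = Pp h (Lg h p) d := by
  apply poly_nat
  intro m
  have h1 : (Pp h p d).comp (Polynomial.X + Polynomial.C (m : ℂ)) =
      Pp h (((N + 1) ^ m) p) d := by
    apply poly_nat
    intro l
    rw [Polynomial.eval_comp, Polynomial.eval_add, Polynomial.eval_X, Polynomial.eval_C,
      ← Nat.cast_add, Pp_nat hF, Pp_nat hF, pow_add, Module.End.mul_apply]
  have h2 : (Polynomial.derivative ((Pp h p d).comp (Polynomial.X + Polynomial.C (m : ℂ)))).eval 0 =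
      (Polynomial.derivative (Pp h (((N + 1) ^ m) p) d)).eval 0 := by rw [h1]
  rw [Polynomial.derivative_comp, map_add, Polynomial.derivative_X, Polynomial.derivative_C,
    add_zero, one_mul, Polynomial.eval_comp, Polynomial.eval_add, Polynomial.eval_X,
    Polynomial.eval_C, zero_add, ← coeff_Lg, Lg_comm_pow hF] at h2
  rw [h2, Pp_nat hF]

theorem Pp_iter {N : Module.End ℂ (Ser n)} (hF : Filt N) (h : LN N) (p : Ser n)
    (d : Fin n →₀ ℕ) (j : ℕ) : (Polynomial.derivative^[j]) (Pp h p d) = Pp h ((Lg h ^ j) p) d := by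
  induction j with
  | zero => simp
  | succ j ih =>
    rw [Function.iterate_succ_apply', ih, Pp_deriv hF, pow_succ', Module.End.mul_apply]

theorem Lg_LN {N : Module.End ℂ (Ser n)} (hF : Filt N) (h : LN N) : LN (Lg h) := by
  intro k
  obtain ⟨r, hr⟩ := h k
  refine ⟨r + 1, fun p => ?_⟩
  rw [mem_J_iff]
  intro d hd
  rw [← Pp_zero hF h, ← Pp_iter hF]
  have h1 : (Pp h p d).natDegree ≤ r := by
    rw [Pp_eq_sum hF h hr le_rfl hd]
    apply Polynomial.natDegree_sum_le_of_forall_le
    intro j hj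
    rw [Finset.mem_range] at hj
    exact (Polynomial.natDegree_smul_le _ _).trans ((Bp_natDegree j).trans hj.le)
  rw [Polynomial.iterate_derivative_eq_zero (by omega), Polynomial.eval_zero]

/-- `exp (log (1 + N)) = 1 + N` -/
theorem E_Lg {N : Module.End ℂ (Ser n)} (hF : Filt N) (h : LN N) (p : Ser n) :
    E (Lg_filt hF h) (Lg_LN hF h) 1 p = (N + 1) p := by
  ext d
  have key := poly_zero' (fun p : Ser n => Rp (Lg_LN hF h) p d - Pp h p d)
    (by
      intro p
      rw [map_sub, Rp_deriv (Lg_filt hF h), Pp_deriv hF]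
      exact Submodule.subset_span ⟨Lg h p, rfl⟩)
    (by
      intro p
      rw [Polynomial.eval_sub, Rp_zero (Lg_filt hF h), Pp_zero hF, sub_self]) p
  rw [coeff_E, sub_eq_zero.1 key]
  have := Pp_nat hF h p d 1
  rwa [Nat.cast_one, pow_one] at this

/-- the logarithm of an algebra endomorphism is a derivation -/
theorem Lg_der {N : Module.End ℂ (Ser n)} (hF : Filt N) (h : LN N)
    (hm : ∀ a b, (N + 1) (a * b) = (N + 1) a * (N + 1) b) : IsDer (Lg h) := by
  classical
  have hpow : ∀ (m : ℕ) (a b : Ser n),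
      ((N + 1) ^ m) (a * b) = ((N + 1) ^ m) a * ((N + 1) ^ m) b := by
    intro m
    induction m with
    | zero => intro a b; simp
    | succ m ih =>
      intro a b
      rw [pow_succ, Module.End.mul_apply, hm, ih, Module.End.mul_apply, Module.End.mul_apply]
  intro a b
  ext d
  have h1 : Pp h (a * b) d =
      ∑ e ∈ Finset.HasAntidiagonal.antidiagonal d, Pp h a e.1 * Pp h b e.2 := by
    apply poly_nat
    intro m
    rw [Pp_nat hF, hpow, coeff_mul, Polynomial.eval_finsetSum]
    refine Finset.sum_congr rfl fun e _ => ?_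
    rw [Polynomial.eval_mul, Pp_nat hF, Pp_nat hF]
  rw [coeff_Lg, h1, map_sum, Polynomial.eval_finsetSum, map_add, coeff_mul, mul_comm b, coeff_mul,
    ← Finset.sum_add_distrib]
  refine Finset.sum_congr rfl fun e _ => ?_
  rw [Polynomial.derivative_mul, Polynomial.eval_add, Polynomial.eval_mul, Polynomial.eval_mul,
    Pp_zero hF, Pp_zero hF, ← coeff_Lg, ← coeff_Lg, add_comm]

/-- unipotent maps -/
def Unip (u : FMap n) : Prop := LN ((T u).toLinearMap - 1)

theorem T_filt (u : FMap n) : Filt (T u).toLinearMap := fun _ _ hp => T_J u hp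

theorem T_sub_filt (u : FMap n) : Filt ((T u).toLinearMap - 1) := by
  intro k p hp
  rw [LinearMap.sub_apply, Module.End.one_apply]
  exact (J n k).sub_mem (T_J u hp) hp

/-- a unipotent map is the exponential of a formal vector field with nilpotent linear part -/
theorem exists_log {u : FMap n} (hu : Unip u) : ∃ (V : Fin n → Ser n) (hV : NC V)
    (h : LN (vfL V)), ∀ p, E (vfL_filt hV) h 1 p = T u p := by
  have hF := T_sub_filt u
  have hLF := Lg_filt hF hu
  have hA : ∀ p, ((T u).toLinearMap - 1 + 1 : Module.End ℂ (Ser n)) p = T u p := by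
    intro p; rw [sub_add_cancel]; rfl
  have hD : IsDer (Lg hu) := Lg_der hF hu (by intro a b; rw [hA, hA, hA, map_mul])
  have hV : NC (fun i => Lg hu (X i)) := by
    intro i
    rw [← mem_J_one]
    apply hLF
    rw [mem_J_one]
    simp
  have he : vfL (fun i => Lg hu (X i)) = Lg hu := by
    apply LinearMap.ext
    exact der_ext (vfL_filt hV) hLF (vfL_der _) hD (fun i => vfL_X _ i)
  have hLN := Lg_LN hF hu
  have hLN' : LN (vfL (fun i => Lg hu (X i))) := by rw [he]; exact hLN
  refine ⟨fun i => Lg hu (X i), hV, hLN', fun p => ?_⟩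
  rw [← hA p, ← E_Lg hF hu p]
  exact E_intertwine (vfL_filt hV) hLN' hLF hLN 1 (fun _ _ h => h)
    (fun p => by rw [Module.End.one_apply, Module.End.one_apply, he]) 1 p

end Pool.RVX
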