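import Mathlib
import Pool.Agent.RVX.Log

/-!
# Reversible maps as exponentials
-/

namespace Pool.RVX

open MvPowerSeries Finsupp Pool.Agent.Lib_helper12.FormalMaps Pool.Agent.Lib_helper12.FunCalc

variable {n : ℕ}

/-! ### unipotent parts -/

theorem sub_funcal_nilp {V : Type*} [AddCommGroup V] [Module ℂ V] [FiniteDimensional ℂ V]
    (T : Module.End ℂ V) : ∃ N : ℕ, (T - funcal T (fun x => x)) ^ N = 0 := by
  refine ⟨Module.finrank ℂ V, ?_⟩
  apply ext_gen T
  intro γ v hv
  have key : ∀ m : ℕ, ((T - funcal T (fun x => x)) ^ m) v = ((T - γ • (1 : Module.End ℂ V)) ^ m) v ∧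
      ((T - γ • (1 : Module.End ℂ V)) ^ m) v ∈ T.maxGenEigenspace γ := by
    intro m
    induction m with
    | zero => exact ⟨by simp, by simpa using hv⟩
    | succ m ih =>
      obtain ⟨h1, h2⟩ := ih
      have h3 : T (((T - γ • (1 : Module.End ℂ V)) ^ m) v) ∈ T.maxGenEigenspace γ :=
        Module.End.mapsTo_maxGenEigenspace_of_comm (Commute.refl T) γ h2
      constructor
      · rw [pow_succ', Module.End.mul_apply, h1, pow_succ', Module.End.mul_apply,
          LinearMap.sub_apply, LinearMap.sub_apply, funcal_apply T _ γ _ h2,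
          LinearMap.smul_apply, Module.End.one_apply]
      · rw [pow_succ', Module.End.mul_apply, LinearMap.sub_apply, LinearMap.smul_apply,
          Module.End.one_apply]
        exact Submodule.sub_mem _ h3 (Submodule.smul_mem _ _ h2)
  rw [(key _).1, LinearMap.zero_apply]
  rw [Module.End.maxGenEigenspace_eq_genEigenspace_finrank, Module.End.mem_genEigenspace_nat,
    LinearMap.mem_ker] at hv
  exact hv

/-- the unipotent part of a formal map -/
theorem unip_part {f s : FMap n} (hs : ∀ p, T s p = S f (fun x => x) p) : Unip (s⁻¹ * f) := by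
  intro k
  have hsf := semisimple_comm hs
  obtain ⟨N, hN⟩ := sub_funcal_nilp (Tk f k).toLinearMap
  refine ⟨N, fun p => ?_⟩
  -- `T (s⁻¹ f) - 1 = (T f - T s) T s⁻¹`
  have h1 : ∀ (j : ℕ) (p : Ser n), (((T (s⁻¹ * f)).toLinearMap - 1) ^ j) p =
      (((T f).toLinearMap - (T s).toLinearMap) ^ j) (T (s⁻¹ ^ j) p) := by
    intro j
    induction j with
    | zero => intro p; simp [T_one']
    | succ j ih =>
      intro p
      rw [pow_succ, Module.End.mul_apply, ih, pow_succ, Module.End.mul_apply]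
      congr 1
      rw [LinearMap.sub_apply, LinearMap.sub_apply, Module.End.one_apply]
      simp only [AlgHom.toLinearMap_apply]
      rw [map_sub, ← T_mul, ← T_mul, ← T_mul]
      have e1 : s⁻¹ * f * s⁻¹ ^ j = s⁻¹ ^ (j + 1) * f := by
        have hc : Commute s⁻¹ f := (show Commute s f from hsf).inv_left
        rw [pow_succ']
        have := (hc.pow_left j).eq
        rw [mul_assoc, mul_assoc, ← this]
      have e2 : s⁻¹ ^ (j + 1) * s = s⁻¹ ^ j := by
        rw [pow_succ]; group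
      rw [e1, e2]
  have h2 : ∀ (j : ℕ) (p : Ser n),
      q n k ((((T f).toLinearMap - (T s).toLinearMap) ^ j) p) =
      (((Tk f k).toLinearMap - funcal (Tk f k).toLinearMap (fun x => x)) ^ j) (q n k p) := by
    intro j
    induction j with
    | zero => intro p; simp
    | succ j ih =>
      intro p
      rw [pow_succ, Module.End.mul_apply, ih, pow_succ, Module.End.mul_apply]
      congr 1
      rw [LinearMap.sub_apply, LinearMap.sub_apply, ← q_S]
      simp only [AlgHom.toLinearMap_apply]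
      rw [map_sub, hs, Tk_q]
  rw [← q_eq_zero, h1, h2, hN, LinearMap.zero_apply]

theorem Unip.conj {u : FMap n} (hu : Unip u) (g : FMap n) : Unip (g * u * g⁻¹) := by
  intro k
  obtain ⟨r, hr⟩ := hu k
  refine ⟨r, fun p => ?_⟩
  have h1 : ∀ (j : ℕ) (p : Ser n), (((T (g * u * g⁻¹)).toLinearMap - 1) ^ j) p =
      T g⁻¹ ((((T u).toLinearMap - 1) ^ j) (T g p)) := by
    intro j
    induction j with
    | zero => intro p; simp [T_inv_T]
    | succ j ih =>
      intro p
      rw [pow_succ, Module.End.mul_apply, ih, pow_succ, Module.End.mul_apply]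
      congr 2
      rw [LinearMap.sub_apply, LinearMap.sub_apply, Module.End.one_apply, Module.End.one_apply]
      simp only [AlgHom.toLinearMap_apply]
      rw [map_sub, T_mul, T_mul, T_T_inv]
  rw [h1]
  exact T_J _ (hr _)

/-! ### negative of an operator -/

theorem Filt.neg {D : Module.End ℂ (Ser n)} (h : Filt D) : Filt (-D) := by
  intro k p hp
  rw [LinearMap.neg_apply]
  exact (J n k).neg_mem (h k p hp)

theorem neg_pow_apply (D : Module.End ℂ (Ser n)) (j : ℕ) (p : Ser n) :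
    ((-D) ^ j) p = ((-1 : ℂ) ^ j) • (D ^ j) p := by
  induction j generalizing p with
  | zero => simp
  | succ j ih =>
    rw [pow_succ, Module.End.mul_apply, ih, LinearMap.neg_apply, map_neg, pow_succ, mul_neg_one,
      neg_smul, smul_neg, pow_succ D, Module.End.mul_apply]

theorem LN.neg {D : Module.End ℂ (Ser n)} (h : LN D) : LN (-D) := by
  intro k
  obtain ⟨r, hr⟩ := h k
  refine ⟨r, fun p => ?_⟩
  rw [neg_pow_apply]
  exact J_smul _ (hr p)

theorem E_neg {D : Module.End ℂ (Ser n)} (hF : Filt D) (h : LN D) (hF' : Filt (-D))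
    (h' : LN (-D)) (t : ℂ) (p : Ser n) : E hF' h' t p = E hF h (-t) p := by
  apply eq_of_forall_J
  intro k
  obtain ⟨r, hr⟩ := h k
  obtain ⟨r', hr'⟩ := h' k
  have h1 := E_approx hF' h' t hr' (R := r + r' + 1) (by omega) p
  have h2 := E_approx hF h (-t) hr (R := r + r' + 1) (by omega) p
  have h3 : Ep (-D) t (r + r' + 1) p = Ep D (-t) (r + r' + 1) p := by
    rw [Ep, Ep]
    refine Finset.sum_congr rfl fun j _ => ?_
    rw [neg_pow_apply, smul_smul]
    congr 1
    rw [neg_pow t]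
    ring
  rw [h3] at h1
  have := (J n k).sub_mem h1 h2
  rwa [sub_sub_sub_cancel_right] at this

/-! ### intertwining of vector fields and maps -/

/-- conjugation by a formal map intertwines exponentials iff it intertwines the vector fields -/
theorem conj_iff {g u w : FMap n} {V W : Fin n → Ser n} (hV : NC V) (hW : NC W)
    (hLV : LN (vfL V)) (hLW : LN (vfL W)) (hu : ∀ p, E (vfL_filt hV) hLV 1 p = T u p)
    (hw : ∀ p, E (vfL_filt hW) hLW 1 p = T w p) :
    u * g = g * w ↔ ∀ i, T g (V i) = vfL W (g.toFun i) := by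
  -- the conjugated derivation
  let D' : Module.End ℂ (Ser n) := (T g⁻¹).toLinearMap ∘ₗ vfL W ∘ₗ (T g).toLinearMap
  have hD'a : ∀ p, D' p = T g⁻¹ (vfL W (T g p)) := fun _ => rfl
  have hD'F : Filt D' := by
    intro k p hp
    rw [hD'a]
    exact T_J _ (vfL_filt hW k _ (T_J _ hp))
  have hD'pow : ∀ (j : ℕ) (p : Ser n), (D' ^ j) p = T g⁻¹ ((vfL W ^ j) (T g p)) := by
    intro j
    induction j with
    | zero => intro p; simp [T_inv_T]
    | succ j ih =>
      intro p
      rw [pow_succ, Module.End.mul_apply, ih, hD'a, T_T_inv, pow_succ, Module.End.mul_apply]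
  have hD'L : LN D' := by
    intro k
    obtain ⟨r, hr⟩ := hLW k
    refine ⟨r, fun p => ?_⟩
    rw [hD'pow]
    exact T_J _ (hr _)
  have hD'D : IsDer D' := by
    intro a b
    rw [hD'a, map_mul, vfL_der, map_add, map_mul, map_mul, T_inv_T, T_inv_T]
    rfl
  have hE' : ∀ p, E hD'F hD'L 1 p = T g⁻¹ (T w (T g p)) := by
    intro p
    rw [← hw]
    have h1 := E_intertwine hD'F hD'L (vfL_filt hW) hLW (T g).toLinearMap (T_filt g)
      (by
        intro p
        simp only [AlgHom.toLinearMap_apply]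
        rw [hD'a, T_T_inv]) 1 p
    simp only [AlgHom.toLinearMap_apply] at h1
    rw [← h1, T_inv_T]
  constructor
  · intro h i
    have h1 : ∀ p, E (vfL_filt hV) hLV 1 p = E hD'F hD'L 1 p := by
      intro p
      rw [hu, hE', ← T_mul, ← T_mul]
      congr 2
      rw [← mul_assoc, ← h]; group
    have h2 := E_inj (vfL_filt hV) hLV hD'F hD'L h1 (X i)
    rw [vfL_X, hD'a, T_X] at h2
    rw [h2, T_T_inv]
  · intro h
    have h1 : vfL V = D' := by
      apply LinearMap.ext
      apply der_ext (vfL_filt hV) hD'F (vfL_der V) hD'D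
      intro i
      rw [vfL_X, hD'a, T_X, ← h, T_inv_T]
    have h2 : ∀ p, T u p = T g⁻¹ (T w (T g p)) := by
      intro p
      rw [← hu, ← hE']
      exact E_intertwine (vfL_filt hV) hLV hD'F hD'L 1 (fun _ _ h => h)
        (fun p => by rw [Module.End.one_apply, Module.End.one_apply, h1]) 1 p
    have h3 : u = g * w * g⁻¹ := by
      apply eq_of_T
      intro p
      rw [h2, T_mul, T_mul]
    rw [h3]; group

theorem vfL_neg (V : Fin n → Ser n) : vfL (-V) = -vfL V := by
  apply LinearMap.ext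
  intro p
  rw [LinearMap.neg_apply, vfL_apply, vfL_apply, ← Finset.sum_neg_distrib]
  refine Finset.sum_congr rfl fun i _ => ?_
  rw [Pi.neg_apply, neg_mul]

theorem NC.neg {V : Fin n → Ser n} (hV : NC V) : NC (-V) := by
  intro i
  rw [Pi.neg_apply, map_neg, hV, neg_zero]

theorem exp_neg {u : FMap n} {V : Fin n → Ser n} (hV : NC V) (hLV : LN (vfL V))
    (hu : ∀ p, E (vfL_filt hV) hLV 1 p = T u p) :
    ∃ hL' : LN (vfL (-V)), ∀ p, E (vfL_filt (Pool.RVX.NC.neg hV)) hL' 1 p = T u⁻¹ p := by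
  have hL' : LN (vfL (-V)) := by rw [vfL_neg]; exact hLV.neg
  refine ⟨hL', fun p => ?_⟩
  have h1 : E (vfL_filt (Pool.RVX.NC.neg hV)) hL' 1 p =
      E (vfL_filt hV).neg hLV.neg 1 p :=
    E_intertwine (vfL_filt (Pool.RVX.NC.neg hV)) hL' (vfL_filt hV).neg hLV.neg 1
      (fun _ _ h => h) (fun p => by
        rw [Module.End.one_apply, Module.End.one_apply, vfL_neg]) 1 p
  rw [h1, E_neg (vfL_filt hV) hLV]
  have h2 : E (vfL_filt hV) hLV (-1) (T u (T u⁻¹ p)) = T u⁻¹ p := by
    rw [← hu, E_add, neg_add_cancel, E_zero]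
  rw [← h2, T_T_inv]

/-- reversal of an exponential -/
theorem rev_iff {g u : FMap n} {V : Fin n → Ser n} (hV : NC V) (hLV : LN (vfL V))
    (hu : ∀ p, E (vfL_filt hV) hLV 1 p = T u p) :
    g * u * g⁻¹ = u⁻¹ ↔ ∀ i, T g (V i) = - vfL V (g.toFun i) := by
  obtain ⟨hL', hu'⟩ := exp_neg hV hLV hu
  have h1 := conj_iff (g := g) hV (Pool.RVX.NC.neg hV) hLV hL' hu hu'
  have h2 : (g * u * g⁻¹ = u⁻¹) ↔ u * g = g * u⁻¹ := by
    constructor
    · intro h
      have h3 : g * u⁻¹ * g⁻¹ = u := by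
        have := congrArg (·⁻¹) h
        simp only [mul_inv_rev, inv_inv] at this
        rw [← mul_assoc] at this
        exact this
      calc u * g = g * u⁻¹ * g⁻¹ * g := by rw [h3]
        _ = g * u⁻¹ := by group
    · intro h
      have h3 : g⁻¹ * u * g = u⁻¹ := by
        calc g⁻¹ * u * g = g⁻¹ * (u * g) := by group
          _ = u⁻¹ := by rw [h]; group
      calc g * u * g⁻¹ = g * (g⁻¹ * u * g)⁻¹ * g⁻¹ := by rw [h3, inv_inv]
        _ = u⁻¹ := by group
  rw [h2, h1]
  refine forall_congr' fun i => ?_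
  rw [vfL_neg, LinearMap.neg_apply]

theorem commute_exp_iff {g u : FMap n} {V : Fin n → Ser n} (hV : NC V) (hLV : LN (vfL V))
    (hu : ∀ p, E (vfL_filt hV) hLV 1 p = T u p) :
    u * g = g * u ↔ ∀ i, T g (V i) = vfL V (g.toFun i) :=
  conj_iff (g := g) hV hV hLV hLV hu hu

/-! ### the pair form with the unipotent part -/

/-- the normal form of a reversible map, with its unipotent part -/
theorem pair_unip {f h : FMap n} (N : ℕ) (hN : 0 < N) (hh : h ^ N = 1)
    (hrev : h * f * h⁻¹ = f⁻¹) : ∃ (g u L : FMap n) (γ : Fin n → ℂˣ), IsLin L ∧ L ^ N = 1 ∧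
      L * diag γ * L⁻¹ = (diag γ)⁻¹ ∧ u * diag γ = diag γ * u ∧ L * u * L⁻¹ = u⁻¹ ∧ Unip u ∧
      g * f * g⁻¹ = diag γ * u := by
  obtain ⟨φ, γ, hφ⟩ := exists_semisimple f
  set s := φ⁻¹ * diag γ * φ with hs
  have hsf := semisimple_comm hφ
  have hsh := semisimple_rev hφ hrev
  have hu := unip_part hφ
  -- first conjugation
  set h1 := φ * h * φ⁻¹ with hh1
  have h1N : h1 ^ N = 1 := by
    have := conj_pow (i := N) (a := φ) (b := h)
    rw [hh1, this, hh]; group
  have h1s : h1 * diag γ * h1⁻¹ = (diag γ)⁻¹ := by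
    have e : (diag γ : FMap n) = φ * s * φ⁻¹ := by rw [hs]; group
    rw [e, hh1]
    calc φ * h * φ⁻¹ * (φ * s * φ⁻¹) * (φ * h * φ⁻¹)⁻¹ = φ * (h * s * h⁻¹) * φ⁻¹ := by group
      _ = (φ * s * φ⁻¹)⁻¹ := by rw [hsh]; group
  obtain ⟨L, hL, hLh⟩ := exists_linMap h1
  have hLs : L * diag γ * L⁻¹ = (diag γ)⁻¹ := by
    apply ((hL.mul (isLin_diag γ)).mul hL.inv).ext (isLin_diag γ).inv
    have e1 : lin (L * diag γ * L⁻¹).toFun = lin (h1 * diag γ * h1⁻¹).toFun := by
      have e2 : lin L⁻¹.toFun = lin h1⁻¹.toFun := by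
        have e3 : lin (L⁻¹ * h1).toFun = 1 := by
          rw [lin_mul, ← hLh, ← lin_mul, inv_mul_cancel, lin_one]
        have e4 : lin (L⁻¹ * h1 * h1⁻¹).toFun = lin h1⁻¹.toFun := by
          rw [lin_mul, e3, one_mul]
        rw [← e4]; congr 2; group
      rw [lin_mul, lin_mul, lin_mul, lin_mul, hLh, e2]
    rw [e1, h1s]
  obtain ⟨hLN, w0, hw0, hw0s⟩ := average h1 L N hN h1N hL hLh
  have hws := hw0s (diag γ) (isLin_diag γ) h1s hLs
  -- second conjugation
  set g0 := w0 * φ with hg0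
  obtain ⟨F, hF⟩ : ∃ F, F = g0 * f * g0⁻¹ := ⟨_, rfl⟩
  have hgs : g0 * s * g0⁻¹ = diag γ := by
    rw [hg0, hs]
    calc w0 * φ * (φ⁻¹ * diag γ * φ) * (w0 * φ)⁻¹ = w0 * diag γ * w0⁻¹ := by group
      _ = diag γ := by rw [hws]; group
  have hgh : g0 * h * g0⁻¹ = L := by
    calc g0 * h * g0⁻¹ = w0 * h1 * w0⁻¹ := by rw [hg0, hh1]; group
      _ = L := by rw [hw0]; group
  obtain ⟨u, hudef⟩ : ∃ u, u = (diag γ)⁻¹ * F := ⟨_, rfl⟩
  have hu1 : Unip u := by
    have e : u = g0 * (s⁻¹ * f) * g0⁻¹ := by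
      rw [hudef, hF, ← hgs]; group
    rw [e]; exact hu.conj g0
  have hFrev : L * F * L⁻¹ = F⁻¹ := by
    rw [hF, ← hgh]
    calc g0 * h * g0⁻¹ * (g0 * f * g0⁻¹) * (g0 * h * g0⁻¹)⁻¹ = g0 * (h * f * h⁻¹) * g0⁻¹ := by group
      _ = (g0 * f * g0⁻¹)⁻¹ := by rw [hrev]; group
  have hFs : diag γ * F = F * diag γ := by
    rw [hF, ← hgs]
    calc g0 * s * g0⁻¹ * (g0 * f * g0⁻¹) = g0 * (s * f) * g0⁻¹ := by group
      _ = g0 * f * g0⁻¹ * (g0 * s * g0⁻¹) := by rw [hsf]; group
  have hFu : F = diag γ * u := by rw [hudef]; group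
  have hus : diag γ * u = u * diag γ := by
    rw [hudef]
    calc diag γ * ((diag γ)⁻¹ * F) = (diag γ)⁻¹ * (diag γ * F) := by group
      _ = (diag γ)⁻¹ * F * diag γ := by rw [hFs, mul_assoc]
  have hLu : L * u * L⁻¹ = u⁻¹ := by
    have e1 : L * F * L⁻¹ = (L * diag γ * L⁻¹) * (L * u * L⁻¹) := by rw [hFu]; group
    rw [hFrev, hLs, hFu] at e1
    have e2 : L * u * L⁻¹ = diag γ * (diag γ * u)⁻¹ := by rw [e1]; group
    rw [e2, hus]; group
  exact ⟨g0, u, L, γ, hL, hLN, hLs, hus.symm, hLu, hu1, by rw [← hF]; exact hFu⟩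

/-- the converse -/
theorem rev_of_unip {G : Type*} [Group G] {s u L : G} (h1 : L * s * L⁻¹ = s⁻¹)
    (h2 : u * s = s * u) (h3 : L * u * L⁻¹ = u⁻¹) : L * (s * u) * L⁻¹ = (s * u)⁻¹ := by
  calc L * (s * u) * L⁻¹ = (L * s * L⁻¹) * (L * u * L⁻¹) := by group
    _ = s⁻¹ * u⁻¹ := by rw [h1, h3]
    _ = (s * u)⁻¹ := by rw [← h2]; group

end Pool.RVX
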