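import Mathlib
import Pool.Agent.RVX.TwoForm

/-!
# The exponential forms of the reversible maps in two variables
-/

namespace Pool.RVX

open MvPowerSeries Finsupp Pool.Agent.Lib_helper12.FormalMaps

variable {n : ℕ}

/-- `u = exp V`: the partial sums of the exponential series are eventually constant in every
coefficient and equal to `u` -/
def IsExpL (V : Fin n → Ser n) (u : FMap n) : Prop :=
  ∀ (i : Fin n) (d : Fin n →₀ ℕ), ∃ K : ℕ, ∀ N ≥ K, coeff d (u.toFun i) =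
    ∑ m ∈ Finset.range N, (m.factorial : ℂ)⁻¹ * coeff d ((vfL V ^ m) (X i))

theorem isExp_iff {V : Fin n → Ser n} (hV : NC V) (hL : LN (vfL V)) (u : FMap n) :
    IsExpL V u ↔ ∀ p, E (vfL_filt hV) hL 1 p = T u p := by
  have hsum : ∀ (i : Fin n) (d : Fin n →₀ ℕ), ∃ K : ℕ, ∀ N ≥ K,
      coeff d (E (vfL_filt hV) hL 1 (X i)) =
      ∑ m ∈ Finset.range N, (m.factorial : ℂ)⁻¹ * coeff d ((vfL V ^ m) (X i)) := by
    intro i d
    obtain ⟨r, hr⟩ := hL (degree d + 1)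
    refine ⟨r + 1, fun N hN => ?_⟩
    have h1 := mem_J_iff.1 (E_approx (vfL_filt hV) hL 1 hr (R := N) (by omega) (X i)) d (by omega)
    rw [map_sub, sub_eq_zero] at h1
    rw [h1, Ep, map_sum]
    refine Finset.sum_congr rfl fun m _ => ?_
    rw [map_smul, smul_eq_mul, one_pow, mul_one]
  constructor
  · intro h
    have h1 : ∀ i, E (vfL_filt hV) hL 1 (X i) = u.toFun i := by
      intro i
      ext d
      obtain ⟨K, hK⟩ := hsum i d
      obtain ⟨K', hK'⟩ := h i d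
      rw [hK (max K K') (le_max_left _ _), hK' (max K K') (le_max_right _ _)]
    intro p
    rw [E_subst (vfL_filt hV) hL (vfL_der V), T_apply]
    congr 1
    funext i
    exact h1 i
  · intro h i d
    obtain ⟨K, hK⟩ := hsum i d
    refine ⟨K, fun N hN => ?_⟩
    rw [← hK N hN, h, T_X]

theorem coeff_T_diag (a : Fin n → ℂˣ) (p : Ser n) (d : Fin n →₀ ℕ) :
    coeff d (T (diag a) p) = (∏ j, ((a j : ℂ)) ^ d j) * coeff d p := by
  rw [T_apply]
  have h1 : subst (diag a).toFun p = rescale (fun j => (a j : ℂ)) p := by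
    rw [rescale_eq_subst]
    rfl
  rw [h1, coeff_rescale]
  congr 1
  rw [Finsupp.prod_fintype]
  intro j
  rw [pow_zero]

theorem T_diag_iff (a : Fin n → ℂˣ) (p : Ser n) (b : ℂˣ) :
    T (diag a) p = (b : ℂ) • p ↔ ∀ d, coeff d p ≠ 0 → ∏ j, a j ^ d j = b := by
  constructor
  · intro h d hd
    have h1 := congrArg (coeff d) h
    rw [coeff_T_diag, map_smul, smul_eq_mul] at h1
    have h2 := mul_right_cancel₀ hd h1
    ext
    rw [← h2, Units.coe_prod]
    simp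
  · intro h
    ext d
    rw [coeff_T_diag, map_smul, smul_eq_mul]
    by_cases hd : coeff d p = 0
    · rw [hd, mul_zero, mul_zero]
    · rw [← h d hd, Units.coe_prod]
      simp

theorem vfL_diag (V : Fin n → Ser n) (a : Fin n → ℂˣ) (i : Fin n) :
    vfL V ((diag a).toFun i) = (a i : ℂ) • V i := by
  show vfL V ((a i : ℂ) • (X i : Ser n)) = _
  rw [map_smul, vfL_X]

theorem comm_diag_iff (V : Fin n → Ser n) (a : Fin n → ℂˣ) :
    (∀ i, T (diag a) (V i) = vfL V ((diag a).toFun i)) ↔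
      ∀ i d, coeff d (V i) ≠ 0 → ∏ j, a j ^ d j = a i := by
  refine forall_congr' fun i => ?_
  rw [vfL_diag, T_diag_iff]

theorem rev_diag_iff (V : Fin n → Ser n) (a : Fin n → ℂˣ) :
    (∀ i, T (diag a) (V i) = - vfL V ((diag a).toFun i)) ↔
      ∀ i d, coeff d (V i) ≠ 0 → ∏ j, a j ^ d j = - a i := by
  refine forall_congr' fun i => ?_
  rw [vfL_diag, ← neg_smul, ← Units.val_neg, T_diag_iff]

theorem det_lin_zero {V : Fin n → Ser n} (hn : 0 < n) (h : IsNilpotent (lin V)) :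
    (lin V).det = 0 := by
  obtain ⟨r, hr⟩ := h
  have h1 := congrArg Matrix.det hr
  have : Nonempty (Fin n) := ⟨⟨0, hn⟩⟩
  rw [Matrix.det_pow, Matrix.det_zero] at h1
  by_contra h2
  exact pow_ne_zero r h2 h1

/-- two variables: the vector field of a unipotent map commuting with `diag ε` and inverted by
`diag a` -/
theorem log_I {u : FMap 2} {ε a : Fin 2 → ℂˣ} (h1 : u * diag ε = diag ε * u)
    (h2 : diag a * u * (diag a)⁻¹ = u⁻¹) (hu : Unip u) : ∃ (V : Fin 2 → Ser 2) (hV : NC V)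
    (hL : LN (vfL V)), (∀ p, E (vfL_filt hV) hL 1 p = T u p) ∧
      (∀ i d, coeff d (V i) ≠ 0 → ∏ j, ε j ^ d j = ε i) ∧
      (∀ i d, coeff d (V i) ≠ 0 → ∏ j, a j ^ d j = - a i) ∧
      coeff (single 0 1) (V 0) = 0 ∧ coeff (single 1 1) (V 1) = 0 ∧
      coeff (single 1 1) (V 0) * coeff (single 0 1) (V 1) = 0 := by
  obtain ⟨V, hV, hL, hE⟩ := exists_log hu
  have e1 := (comm_diag_iff V ε).1 ((commute_exp_iff hV hL hE).1 h1)
  have e2 := (rev_diag_iff V a).1 ((rev_iff hV hL hE).1 h2)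
  have hd : ∀ i, coeff (single i 1) (V i) = 0 := by
    intro i
    by_contra h
    have h3 := e2 i _ h
    rw [Finset.prod_eq_single i (by
      intro j _ hj
      rw [Finsupp.single_eq_of_ne hj, pow_zero]) (by simp), Finsupp.single_eq_same, pow_one] at h3
    have h4 := congrArg Units.val h3
    rw [Units.val_neg, eq_neg_iff_add_eq_zero, ← two_mul] at h4
    exact (mul_ne_zero two_ne_zero (a i).ne_zero) h4
  refine ⟨V, hV, hL, hE, e1, e2, hd 0, hd 1, ?_⟩
  have h5 := det_lin_zero (by norm_num) (lin_nilp hV hL)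
  rw [Matrix.det_fin_two] at h5
  have h6 : lin V 0 0 = 0 := hd 0
  rw [h6, zero_mul, zero_sub, neg_eq_zero] at h5
  exact h5

theorem lin_swapMap (c : ℂˣ) : lin (swapMap c).toFun = !![0, (c : ℂ); (c : ℂ), 0] := by
  have h01 : (single (0 : Fin 2) 1 : Fin 2 →₀ ℕ) ≠ single 1 1 := by
    intro h
    exact absurd (Finsupp.single_left_injective one_ne_zero h) (by decide)
  ext i j
  fin_cases i <;> fin_cases j <;> simp [lin, swapMap, coeff_X, h01, h01.symm]

/-- the first family, exponential version -/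
def FormIe (f : FMap 2) : Prop :=
  ∃ (g u : FMap 2) (ε a : Fin 2 → ℂˣ) (V : Fin 2 → Ser 2), (∀ i, ε i ^ 2 = 1) ∧
    (∃ k : ℕ, ∀ i, a i ^ 2 ^ k = 1) ∧ (∀ i, constantCoeff (V i) = 0) ∧
    coeff (single 0 1) (V 1) = 0 ∧
    (∀ i d, coeff d (V i) ≠ 0 → ∏ j, ε j ^ d j = ε i ∧ ∏ j, a j ^ d j = - a i) ∧
    IsExpL V u ∧ g * f * g⁻¹ = diag ε * u

theorem FormIu.to_exp {f : FMap 2} (hf : FormIu f) : FormIe f := by
  obtain ⟨g, u, ε, a, hε, ⟨k, hk⟩, h1, h2, hu, h3⟩ := hf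
  obtain ⟨V, hV, hL, hE, e1, e2, d0, d1, hprod⟩ := log_I h1 h2 hu
  by_cases hc : coeff (single 0 1) (V 1) = 0
  · exact ⟨g, u, ε, a, V, hε, ⟨k, hk⟩, hV, hc, fun i d hd => ⟨e1 i d hd, e2 i d hd⟩,
      (isExp_iff hV hL u).2 hE, h3⟩
  · have hb : coeff (single 1 1) (V 0) = 0 := (mul_eq_zero.1 hprod).resolve_right hc
    -- exchange the coordinates
    have hsw : ∀ b : Fin 2 → ℂˣ, swapMap 1 * diag b * (swapMap 1)⁻¹ = diag ![b 1, b 0] := by
      intro b
      rw [swapMap_diag]; group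
    have h1' : (swapMap 1 * u * (swapMap 1)⁻¹) * diag ![ε 1, ε 0] =
        diag ![ε 1, ε 0] * (swapMap 1 * u * (swapMap 1)⁻¹) := by
      rw [← hsw]
      calc swapMap 1 * u * (swapMap 1)⁻¹ * (swapMap 1 * diag ε * (swapMap 1)⁻¹) =
          swapMap 1 * (u * diag ε) * (swapMap 1)⁻¹ := by group
        _ = _ := by rw [h1]; group
    have h2' : diag ![a 1, a 0] * (swapMap 1 * u * (swapMap 1)⁻¹) * (diag ![a 1, a 0])⁻¹ =
        (swapMap 1 * u * (swapMap 1)⁻¹)⁻¹ := by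
      rw [← hsw]
      exact conj_rev h2
    obtain ⟨W, hW, hLW, hEW, f1, f2, -, -, -⟩ := log_I h1' h2' (hu.conj (swapMap 1))
    have hrel := (conj_iff (g := swapMap 1) hW hV hLW hL hEW hE).1 (by group) 1
    refine ⟨swapMap 1 * g, swapMap 1 * u * (swapMap 1)⁻¹, ![ε 1, ε 0], ![a 1, a 0], W, ?_,
      ⟨k, ?_⟩, hW, ?_, fun i d hd => ⟨f1 i d hd, f2 i d hd⟩, (isExp_iff hW hLW _).2 hEW, ?_⟩
    · intro i
      fin_cases i
      · exact hε 1
      · exact hε 0
    · intro i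
      fin_cases i
      · exact hk 1
      · exact hk 0
    · have h4 : vfL V ((swapMap 1).toFun 1) = V 0 := by
        show vfL V (((1 : ℂˣ) : ℂ) • (X 0 : Ser 2)) = V 0
        rw [map_smul, vfL_X, Units.val_one, one_smul]
      rw [h4] at hrel
      have h5 := congrFun (congrFun (lin_subst hW (swapMap 1).const) 1) 1
      rw [lin_swapMap, Matrix.mul_apply, Fin.sum_univ_two] at h5
      have h6 : lin (fun i => subst (swapMap 1).toFun (W i)) 1 1 = 0 := by
        show coeff (single 1 1) (subst (swapMap 1).toFun (W 1)) = 0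
        rw [← T_apply, hrel]
        exact hb
      rw [h6] at h5
      have h7 : lin W 1 0 = 0 := by simpa using h5.symm
      exact h7
    · rw [← hsw]
      calc swapMap 1 * g * f * (swapMap 1 * g)⁻¹ =
          swapMap 1 * (g * f * g⁻¹) * (swapMap 1)⁻¹ := by group
        _ = _ := by rw [h3]; group

theorem LN_of_I {a : Fin 2 → ℂˣ} {V : Fin 2 → Ser 2} (hV : NC V)
    (hc : coeff (single 0 1) (V 1) = 0)
    (hd : ∀ i d, coeff d (V i) ≠ 0 → ∏ j, a j ^ d j = - a i) : LN (vfL V) := by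
  apply LN_vfL hV
  have hdd : ∀ i, coeff (single i 1) (V i) = 0 := by
    intro i
    by_contra h
    have h3 := hd i _ h
    rw [Finset.prod_eq_single i (by
      intro j _ hj
      rw [Finsupp.single_eq_of_ne hj, pow_zero]) (by simp), Finsupp.single_eq_same, pow_one] at h3
    have h4 := congrArg Units.val h3
    rw [Units.val_neg, eq_neg_iff_add_eq_zero, ← two_mul] at h4
    exact (mul_ne_zero two_ne_zero (a i).ne_zero) h4
  refine ⟨2, ?_⟩
  have h00 : lin V 0 0 = 0 := hdd 0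
  have h11 : lin V 1 1 = 0 := hdd 1
  have h10 : lin V 1 0 = 0 := hc
  rw [pow_two]
  ext i j
  rw [Matrix.mul_apply, Fin.sum_univ_two]
  fin_cases i <;> fin_cases j <;> simp [h00, h11, h10]

theorem FormIe.to_unip {f : FMap 2} (hf : FormIe f) : ∃ h : FMap 2, h * f * h⁻¹ = f⁻¹ := by
  obtain ⟨g, u, ε, a, V, hε, -, hV, hc, hd, hexp, h3⟩ := hf
  have hL : LN (vfL V) := LN_of_I hV hc (fun i d h => (hd i d h).2)
  have hE := (isExp_iff hV hL u).1 hexp
  have h1 : u * diag ε = diag ε * u :=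
    (commute_exp_iff hV hL hE).2 ((comm_diag_iff V ε).2 fun i d h => (hd i d h).1)
  have h2 : diag a * u * (diag a)⁻¹ = u⁻¹ :=
    (rev_iff hV hL hE).2 ((rev_diag_iff V a).2 fun i d h => (hd i d h).2)
  have e1 : diag a * diag ε * (diag a)⁻¹ = (diag ε : FMap 2)⁻¹ := by
    rw [diag_inv, diag_inv, diag_mul, diag_mul]
    congr 1
    funext i
    rw [Pi.mul_apply, Pi.mul_apply, Pi.inv_apply, Pi.inv_apply, mul_comm (a i), mul_assoc,
      mul_inv_cancel, mul_one]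
    exact eq_inv_of_mul_eq_one_left (by rw [← pow_two]; exact hε i)
  have e3 := rev_of_unip e1 h1 h2
  rw [← h3] at e3
  exact reverses_conj e3

/-- the second family, exponential version -/
def FormIIe (f : FMap 2) : Prop :=
  ∃ (g u : FMap 2) (μ c : ℂˣ) (V : Fin 2 → Ser 2), μ ^ 2 ≠ 1 ∧ (∃ k : ℕ, c ^ 2 ^ k = 1) ∧
    (∀ d, coeff d (V 0) ≠ 0 → 2 ≤ d 0 + d 1 ∧ μ ^ d 0 = μ ^ (d 1 + 1) ∧
      c ^ (2 * (d 0 + d 1)) = c ^ 2) ∧
    (c : ℂ) • V 1 = - subst (swapMap c).toFun (V 0) ∧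
    IsExpL V u ∧ g * f * g⁻¹ = diag ![μ, μ⁻¹] * u

theorem mu_iff (μ : ℂˣ) (d : Fin 2 →₀ ℕ) :
    ∏ j, (![μ, μ⁻¹] : Fin 2 → ℂˣ) j ^ d j = μ ↔ μ ^ d 0 = μ ^ (d 1 + 1) := by
  rw [Fin.prod_univ_two]
  show μ ^ d 0 * μ⁻¹ ^ d 1 = μ ↔ _
  rw [inv_pow, mul_inv_eq_iff_eq_mul, pow_succ']

theorem cc_iff (c : ℂˣ) (d : Fin 2 →₀ ℕ) :
    ∏ j, (fun _ => c ^ 2 : Fin 2 → ℂˣ) j ^ d j = c ^ 2 ↔ c ^ (2 * (d 0 + d 1)) = c ^ 2 := by
  rw [Fin.prod_univ_two]
  show (c ^ 2) ^ d 0 * (c ^ 2) ^ d 1 = c ^ 2 ↔ _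
  rw [← pow_add, ← pow_mul]

theorem vfL_swap0 (V : Fin 2 → Ser 2) (c : ℂˣ) : vfL V ((swapMap c).toFun 0) = (c : ℂ) • V 1 := by
  show vfL V ((c : ℂ) • (X 1 : Ser 2)) = _
  rw [map_smul, vfL_X]

theorem vfL_swap1 (V : Fin 2 → Ser 2) (c : ℂˣ) : vfL V ((swapMap c).toFun 1) = (c : ℂ) • V 0 := by
  show vfL V ((c : ℂ) • (X 0 : Ser 2)) = _
  rw [map_smul, vfL_X]

theorem FormIIu.to_exp {f : FMap 2} (hf : FormIIu f) : FormIIe f := by
  obtain ⟨g, u, μ, c, hμ, hck, h1, h2, hu, h3⟩ := hf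
  obtain ⟨V, hV, hL, hE⟩ := exists_log hu
  have e1 := (comm_diag_iff V _).1 ((commute_exp_iff hV hL hE).1 h1)
  have e2 := (rev_iff hV hL hE).1 h2
  have r0 : T (swapMap c) (V 0) = -((c : ℂ) • V 1) := by rw [e2 0, vfL_swap0]
  have r1 : T (swapMap c) (V 1) = -((c : ℂ) • V 0) := by rw [e2 1, vfL_swap1]
  have hmu : ∀ d, coeff d (V 0) ≠ 0 → μ ^ d 0 = μ ^ (d 1 + 1) := fun d hd =>
    (mu_iff μ d).1 (e1 0 d hd)
  have hcc : ∀ d, coeff d (V 0) ≠ 0 → c ^ (2 * (d 0 + d 1)) = c ^ 2 := by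
    have h4 : T (diag (fun _ => c ^ 2)) (V 0) = ((c ^ 2 : ℂˣ) : ℂ) • V 0 := by
      rw [← swapMap_sq, T_mul, r0, map_neg, map_smul, r1, smul_neg, neg_neg, smul_smul,
        Units.val_pow_eq_pow_val, pow_two]
    intro d hd
    exact (cc_iff c d).1 ((T_diag_iff _ _ _).1 h4 d hd)
  have h10 : coeff (single 1 1) (V 0) = 0 := by
    by_contra h
    have h4 := hmu _ h
    apply hμ
    simpa using h4.symm
  have h01 : coeff (single 0 1) (V 0) = 0 := by
    -- the linear part is `diag (λ, -λ)` and nilpotent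
    have h5 := det_lin_zero (by norm_num) (lin_nilp hV hL)
    rw [Matrix.det_fin_two] at h5
    have h6 : lin V 0 1 = 0 := h10
    have h7 := congrFun (congrFun (lin_subst hV (swapMap c).const) 0) 1
    rw [lin_swapMap, Matrix.mul_apply, Fin.sum_univ_two] at h7
    have h8 : lin (fun i => subst (swapMap c).toFun (V i)) 0 1 = -((c : ℂ) * lin V 1 1) := by
      show coeff (single 1 1) (subst (swapMap c).toFun (V 0)) = _
      rw [← T_apply, r0, map_neg, map_smul]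
      rfl
    rw [h8] at h7
    have h9 : lin V 1 1 = - lin V 0 0 := by
      have h10 : -((c : ℂ) * lin V 1 1) = lin V 0 0 * (c : ℂ) := by simpa using h7
      have h11 : (c : ℂ) * (lin V 1 1 + lin V 0 0) = 0 := by linear_combination -h10
      have h12 := (mul_eq_zero.1 h11).resolve_left c.ne_zero
      exact eq_neg_of_add_eq_zero_left h12
    rw [h6, zero_mul, sub_zero, h9, mul_neg, neg_eq_zero] at h5
    exact mul_self_eq_zero.1 h5
  refine ⟨g, u, μ, c, V, hμ, hck, fun d hd => ⟨?_, hmu d hd, hcc d hd⟩, ?_,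
    (isExp_iff hV hL u).2 hE, h3⟩
  · have h4 : V 0 ∈ J 2 2 := by
      apply mem_J_two (hV 0)
      intro j
      fin_cases j
      · exact h01
      · exact h10
    by_contra h5
    apply hd
    apply mem_J_iff.1 h4
    rw [Finsupp.degree_eq_sum, Fin.sum_univ_two]
    omega
  · rw [← T_apply, r0, neg_neg]

theorem FormIIe.to_rev {f : FMap 2} (hf : FormIIe f) : ∃ h : FMap 2, h * f * h⁻¹ = f⁻¹ := by
  obtain ⟨g, u, μ, c, V, hμ, -, hd, hV1, hexp, h3⟩ := hf
  have r0 : T (swapMap c) (V 0) = -((c : ℂ) • V 1) := by rw [T_apply, hV1, neg_neg]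
  have hV1' : V 1 = (c : ℂ)⁻¹ • (- T (swapMap c) (V 0)) := by
    rw [r0, neg_neg, smul_smul, inv_mul_cancel₀ c.ne_zero, one_smul]
  have hJ0 : V 0 ∈ J 2 2 := by
    rw [mem_J_iff]
    intro d hd'
    by_contra h
    have := (hd d h).1
    rw [Finsupp.degree_eq_sum, Fin.sum_univ_two] at hd'
    omega
  have hJ1 : V 1 ∈ J 2 2 := by
    rw [hV1']
    exact J_smul _ ((J 2 2).neg_mem (T_J _ hJ0))
  have hV : NC V := by
    intro i
    rw [← mem_J_one]
    fin_cases i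
    · exact J_anti (by norm_num) hJ0
    · exact J_anti (by norm_num) hJ1
  have hlin : lin V = 0 := by
    ext i j
    have h1 : degree (single j 1 : Fin 2 →₀ ℕ) < 2 := by rw [degree_single]; norm_num
    fin_cases i
    · exact mem_J_iff.1 hJ0 _ h1
    · exact mem_J_iff.1 hJ1 _ h1
  have hL : LN (vfL V) := LN_vfL hV ⟨1, by rw [hlin, pow_one]⟩
  have hE := (isExp_iff hV hL u).1 hexp
  have hcc : T (diag (fun _ => c ^ 2)) (V 0) = ((c ^ 2 : ℂˣ) : ℂ) • V 0 :=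
    (T_diag_iff _ _ _).2 fun d h => (cc_iff c d).2 (hd d h).2.2
  have r1 : T (swapMap c) (V 1) = -((c : ℂ) • V 0) := by
    rw [hV1', map_smul, map_neg, ← T_mul, swapMap_sq, hcc, smul_neg, smul_smul,
      Units.val_pow_eq_pow_val, pow_two, ← mul_assoc, inv_mul_cancel₀ c.ne_zero, one_mul]
  have hmu0 : T (diag ![μ, μ⁻¹]) (V 0) = (μ : ℂ) • V 0 :=
    (T_diag_iff _ _ _).2 fun d h => (mu_iff μ d).2 (hd d h).2.1
  have hmu0' : T (diag ![μ⁻¹, μ]) (V 0) = ((μ⁻¹ : ℂˣ) : ℂ) • V 0 := by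
    have h1 : (diag ![μ⁻¹, μ] : FMap 2) = (diag ![μ, μ⁻¹])⁻¹ := by
      rw [diag_inv]
      congr 1
      funext i
      fin_cases i <;> simp
    have h2 := congrArg (T (diag ![μ, μ⁻¹])⁻¹) hmu0
    rw [T_inv_T, map_smul] at h2
    rw [h1]
    conv_rhs => rw [h2]
    rw [smul_smul, Units.inv_mul, one_smul]
  have hmu1 : T (diag ![μ, μ⁻¹]) (V 1) = ((μ⁻¹ : ℂˣ) : ℂ) • V 1 := by
    have h1 : swapMap c * diag ![μ, μ⁻¹] = diag ![μ⁻¹, μ] * swapMap c := by
      rw [swapMap_diag]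
      rfl
    rw [hV1', map_smul, map_neg, ← T_mul, h1, T_mul, hmu0', map_smul, ← smul_neg, smul_comm]
  have h1 : u * diag ![μ, μ⁻¹] = diag ![μ, μ⁻¹] * u := by
    apply (commute_exp_iff hV hL hE).2
    intro i
    rw [vfL_diag]
    fin_cases i
    · exact hmu0
    · exact hmu1
  have h2 : swapMap c * u * (swapMap c)⁻¹ = u⁻¹ := by
    apply (rev_iff hV hL hE).2
    intro i
    fin_cases i
    · show T (swapMap c) (V 0) = - vfL V ((swapMap c).toFun 0)
      rw [vfL_swap0, r0]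
    · show T (swapMap c) (V 1) = - vfL V ((swapMap c).toFun 1)
      rw [vfL_swap1, r1]
  have e1 : swapMap c * diag ![μ, μ⁻¹] * (swapMap c)⁻¹ = (diag ![μ, μ⁻¹] : FMap 2)⁻¹ := by
    rw [swapMap_diag, diag_inv]
    have : (![(![μ, μ⁻¹] : Fin 2 → ℂˣ) 1, (![μ, μ⁻¹] : Fin 2 → ℂˣ) 0] : Fin 2 → ℂˣ) =
        (![μ, μ⁻¹])⁻¹ := by
      funext i
      fin_cases i <;> simp
    rw [this]; group
  have e3 := rev_of_unip e1 h1 h2
  rw [← h3] at e3
  exact reverses_conj e3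

theorem lin_of_II {c : ℂˣ} {V : Fin 2 → Ser 2} (hd : ∀ d, coeff d (V 0) ≠ 0 → 2 ≤ d 0 + d 1)
    (hV1 : (c : ℂ) • V 1 = - subst (swapMap c).toFun (V 0)) : NC V ∧ IsNilpotent (lin V) := by
  have r0 : T (swapMap c) (V 0) = -((c : ℂ) • V 1) := by rw [T_apply, hV1, neg_neg]
  have hV1' : V 1 = (c : ℂ)⁻¹ • (- T (swapMap c) (V 0)) := by
    rw [r0, neg_neg, smul_smul, inv_mul_cancel₀ c.ne_zero, one_smul]
  have hJ0 : V 0 ∈ J 2 2 := by
    rw [mem_J_iff]
    intro d hd'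
    by_contra h
    have := hd d h
    rw [Finsupp.degree_eq_sum, Fin.sum_univ_two] at hd'
    omega
  have hJ1 : V 1 ∈ J 2 2 := by
    rw [hV1']
    exact J_smul _ ((J 2 2).neg_mem (T_J _ hJ0))
  have hV : NC V := by
    intro i
    rw [← mem_J_one]
    fin_cases i
    · exact J_anti (by norm_num) hJ0
    · exact J_anti (by norm_num) hJ1
  refine ⟨hV, 1, ?_⟩
  rw [pow_one]
  ext i j
  have h1 : degree (single j 1 : Fin 2 →₀ ℕ) < 2 := by rw [degree_single]; norm_num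
  fin_cases i
  · exact mem_J_iff.1 hJ0 _ h1
  · exact mem_J_iff.1 hJ1 _ h1

/-- the exponential forms of the reversible maps -/
theorem rev_iff_exp (f : FMap 2) : (∃ h : FMap 2, h * f * h⁻¹ = f⁻¹) ↔ FormIe f ∨ FormIIe f := by
  constructor
  · intro h
    rcases formu_of_reversible h with h1 | h1
    · exact Or.inl h1.to_exp
    · exact Or.inr h1.to_exp
  · rintro (h | h)
    · exact h.to_unip
    · exact h.to_rev

end Pool.RVX
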