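import Mathlib
import Pool.Agent.RVX.TwoExp
import Pool.Agent.Lib_helper12.RevGeneral

/-!
# The exponential form of the reversible maps in `n` variables, and the existence of exponentials
-/

namespace Pool.RVX

open MvPowerSeries Finsupp Pool.Agent.Lib_helper12.FormalMaps

variable {n : ℕ}

/-- a formal vector field with nilpotent linear part has exactly one exponential -/
theorem exists_unique_exp {V : Fin n → Ser n} (hV : NC V) (hN : IsNilpotent (lin V)) :
    ∃! u : FMap n, IsExpL V u := by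
  have hL := LN_vfL hV hN
  refine ⟨Emap (vfL_filt hV) hL (vfL_der V) 1, ?_, ?_⟩
  · refine (isExp_iff hV hL _).2 fun p => ?_
    rw [T_Emap]
  · intro u hu
    apply eq_of_T
    intro p
    rw [T_Emap]
    exact ((isExp_iff hV hL u).1 hu p).symm

theorem vfL_lin (V : Fin n → Ser n) {K : FMap n} (hK : IsLin K) (i : Fin n) :
    vfL V (K.toFun i) = ∑ j, lin K.toFun i j • V j := by
  rw [hK.eq, map_sum]
  refine Finset.sum_congr rfl fun j _ => ?_
  rw [map_smul, vfL_X]

/-- the exponential form of the reversible maps in `n` variables -/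
theorem rev_iff_exp_n (f : FMap n) : (∃ h : FMap n, h * f * h⁻¹ = f⁻¹) ↔
    ∃ (g u K : FMap n) (γ : Fin n → ℂˣ) (V : Fin n → Ser n), IsLin K ∧
      (∃ k : ℕ, K ^ 2 ^ k = 1) ∧ K * diag γ * K⁻¹ = (diag γ)⁻¹ ∧
      (∀ i, constantCoeff (V i) = 0) ∧ IsNilpotent (lin V) ∧
      (∀ i d, coeff d (V i) ≠ 0 → ∏ j, γ j ^ d j = γ i) ∧
      (∀ i, subst K.toFun (V i) = - ∑ j, lin K.toFun i j • V j) ∧
      IsExpL V u ∧ g * f * g⁻¹ = diag γ * u := by
  constructor
  · rintro ⟨h0, hrev0⟩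
    obtain ⟨φ, a0, ⟨k, hk⟩, hφ⟩ := reverser hrev0
    set h := φ⁻¹ * diag a0 * φ with hh
    have hN : h ^ 2 ^ k = 1 := by
      have h4 := conj_pow (i := 2 ^ k) (a := φ⁻¹) (b := diag a0)
      rw [inv_inv] at h4
      have h5 : a0 ^ 2 ^ k = 1 := by
        funext i; exact hk i
      rw [hh, h4, diag_pow, h5, diag_one]
      group
    obtain ⟨g, u, K, γ, hK, hKN, hKs, hus, hKu, hu, hgf⟩ :=
      pair_unip (2 ^ k) (by positivity) hN hφ
    obtain ⟨V, hV, hL, hE⟩ := exists_log hu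
    refine ⟨g, u, K, γ, V, hK, ⟨k, hKN⟩, hKs, hV, lin_nilp hV hL,
      (comm_diag_iff V γ).1 ((commute_exp_iff hV hL hE).1 hus), fun i => ?_,
      (isExp_iff hV hL u).2 hE, hgf⟩
    rw [← T_apply, (rev_iff hV hL hE).1 hKu i, vfL_lin V hK]
  · rintro ⟨g, u, K, γ, V, hK, -, hKs, hV, hN, hd, hKV, hexp, hgf⟩
    have hL := LN_vfL hV hN
    have hE := (isExp_iff hV hL u).1 hexp
    have h1 : u * diag γ = diag γ * u :=
      (commute_exp_iff hV hL hE).2 ((comm_diag_iff V γ).2 hd)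
    have h2 : K * u * K⁻¹ = u⁻¹ := by
      refine (rev_iff hV hL hE).2 fun i => ?_
      rw [T_apply, hKV, vfL_lin V hK]
    have e3 := rev_of_unip hKs h1 h2
    rw [← hgf] at e3
    exact reverses_conj e3

end Pool.RVX
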