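import Mathlib
import Pool.Agent.Lib_helper12.RevGeneral
import Pool.Agent.Lib_helper12.TwoVar
import Pool.Agent.RVX.GenExp

/-!
# Reversible formally invertible maps in two variables over `ℂ`

`FMap 2` is the group of formally invertible maps in two variables over `ℂ` (pairs of formal
power series without constant term with invertible linear part, under composition).
The main theorem describes the reversible elements of `FMap 2` up to conjugacy by explicit families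
with free coefficients: they are, up to conjugacy, the maps `s ∘ exp V` with `s` diagonal linear and
`V` in one of the explicit linear spaces of formal vector fields `SpaceI`, `SpaceII`.
-/

namespace Pool.RVX.Candidate

open Pool.Agent.Lib_helper12.FormalMaps MvPowerSeries

/-- `f` is reversible: some `h` in the group satisfies `h ∘ f ∘ h⁻¹ = f⁻¹`. -/
def IsReversible (f : FMap 2) : Prop := ∃ h : FMap 2, h * f * h⁻¹ = f⁻¹

/-- The derivation `p ↦ V₁ ∂p/∂X + V₂ ∂p/∂Y` given by the formal vector field `V = (V₁, V₂)`. -/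
noncomputable def vf (V : Fin 2 → MvPowerSeries (Fin 2) ℂ) (p : MvPowerSeries (Fin 2) ℂ) :
    MvPowerSeries (Fin 2) ℂ :=
  V 0 * pderiv ℂ 0 p + V 1 * pderiv ℂ 1 p

/-- `u = exp V`, that is `u_i = ∑_m V^m(X_i) / m!`: in every coefficient the partial sums are
eventually constant with the coefficient of `u_i` as value. -/
def IsExp (V : Fin 2 → MvPowerSeries (Fin 2) ℂ) (u : FMap 2) : Prop :=
  ∀ (i : Fin 2) (d : Fin 2 →₀ ℕ), ∃ K : ℕ, ∀ N ≥ K, coeff d (u.toFun i) =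
    ∑ m ∈ Finset.range N, (m.factorial : ℂ)⁻¹ * coeff d ((vf V)^[m] (X i))

/-- The first space of vector fields: no constant terms, `V₂` has no term in `X`, and `V_i` only
involves monomials `X^d` with `ε^d = ε_i` and `a^d = -a_i`. -/
def SpaceI (ε a : Fin 2 → ℂˣ) (V : Fin 2 → MvPowerSeries (Fin 2) ℂ) : Prop :=
  (∀ i, constantCoeff (V i) = 0) ∧ coeff (Finsupp.single 0 1) (V 1) = 0 ∧
    ∀ (i : Fin 2) (d : Fin 2 →₀ ℕ), coeff d (V i) ≠ 0 →
      ε 0 ^ d 0 * ε 1 ^ d 1 = ε i ∧ a 0 ^ d 0 * a 1 ^ d 1 = -a i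

/-- The second space of vector fields: `V₁` only involves monomials `X^j Y^k` with `j + k ≥ 2`,
`μ^j = μ^(k+1)` and `c^(2(j+k)) = c^2`, and `c V₂(X, Y) = -V₁(c Y, c X)`. -/
def SpaceII (μ c : ℂˣ) (V : Fin 2 → MvPowerSeries (Fin 2) ℂ) : Prop :=
  (∀ d : Fin 2 →₀ ℕ, coeff d (V 0) ≠ 0 → 2 ≤ d 0 + d 1 ∧ μ ^ d 0 = μ ^ (d 1 + 1) ∧
    c ^ (2 * (d 0 + d 1)) = c ^ 2) ∧
  (c : ℂ) • V 1 = -subst ![(c : ℂ) • X 1, (c : ℂ) • X 0] (V 0)

/-- The first exponential family: `f` is conjugate to `s ∘ exp V` with `s = (ε₁ X, ε₂ Y)`,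
`ε₁, ε₂ ∈ {1, -1}`, roots of unity `a₁, a₂` of 2-power order and `V` in `SpaceI ε a`. -/
def ExpI (f : FMap 2) : Prop :=
  ∃ (g u : FMap 2) (ε a : Fin 2 → ℂˣ) (V : Fin 2 → MvPowerSeries (Fin 2) ℂ),
    (∀ i, ε i = 1 ∨ ε i = -1) ∧ (∃ k : ℕ, ∀ i, a i ^ 2 ^ k = 1) ∧ SpaceI ε a V ∧ IsExp V u ∧
    g * f * g⁻¹ = diag ε * u

/-- The second exponential family: `f` is conjugate to `s ∘ exp V` with `s = (μ X, μ⁻¹ Y)`,
`μ² ≠ 1`, a root of unity `c` of 2-power order and `V` in `SpaceII μ c`. -/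
def ExpII (f : FMap 2) : Prop :=
  ∃ (g u : FMap 2) (μ c : ℂˣ) (V : Fin 2 → MvPowerSeries (Fin 2) ℂ),
    μ ^ 2 ≠ 1 ∧ (∃ k : ℕ, c ^ 2 ^ k = 1) ∧ SpaceII μ c V ∧ IsExp V u ∧
    g * f * g⁻¹ = diag ![μ, μ⁻¹] * u

theorem sq_iff (x : ℂˣ) : (x = 1 ∨ x = -1) ↔ x ^ 2 = 1 := by
  constructor
  · rintro (rfl | rfl) <;> simp
  · intro h
    have h1 : (x : ℂ) ^ 2 = 1 := by
      rw [← Units.val_pow_eq_pow_val, h, Units.val_one]
    rw [pow_two] at h1
    rcases mul_self_eq_one_iff.1 h1 with h2 | h2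
    · left; ext; exact h2
    · right; ext; rw [h2, Units.val_neg, Units.val_one]

theorem vf_eq (V : Fin 2 → MvPowerSeries (Fin 2) ℂ) : vf V = ⇑(Pool.RVX.vfL V) := by
  funext p
  rw [Pool.RVX.vfL_apply, Fin.sum_univ_two]
  rfl

theorem isExp_iff (V : Fin 2 → MvPowerSeries (Fin 2) ℂ) (u : FMap 2) :
    IsExp V u ↔ Pool.RVX.IsExpL V u := by
  have h : ∀ m : ℕ, (vf V)^[m] = ⇑(Pool.RVX.vfL V ^ m) := by
    intro m
    rw [vf_eq]
    funext p
    exact (Module.End.pow_apply _ _ _).symm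
  unfold IsExp Pool.RVX.IsExpL
  simp only [h]

theorem expI_iff (f : FMap 2) : ExpI f ↔ Pool.RVX.FormIe f := by
  constructor
  · rintro ⟨g, u, ε, a, V, h1, h2, ⟨h3, h4, h5⟩, h6, h7⟩
    refine ⟨g, u, ε, a, V, fun i => (sq_iff _).1 (h1 i), h2, h3, h4, fun i d hd => ?_,
      (isExp_iff V u).1 h6, h7⟩
    rw [Fin.prod_univ_two, Fin.prod_univ_two]
    exact h5 i d hd
  · rintro ⟨g, u, ε, a, V, h1, h2, h3, h4, h5, h6, h7⟩
    refine ⟨g, u, ε, a, V, fun i => (sq_iff _).2 (h1 i), h2, ⟨h3, h4, fun i d hd => ?_⟩,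
      (isExp_iff V u).2 h6, h7⟩
    have := h5 i d hd
    rwa [Fin.prod_univ_two, Fin.prod_univ_two] at this

theorem expII_iff (f : FMap 2) : ExpII f ↔ Pool.RVX.FormIIe f := by
  constructor
  · rintro ⟨g, u, μ, c, V, h1, h2, ⟨h3, h4⟩, h6, h7⟩
    exact ⟨g, u, μ, c, V, h1, h2, h3, h4, (isExp_iff V u).1 h6, h7⟩
  · rintro ⟨g, u, μ, c, V, h1, h2, h3, h4, h6, h7⟩
    exact ⟨g, u, μ, c, V, h1, h2, ⟨h3, h4⟩, (isExp_iff V u).2 h6, h7⟩

theorem exp_unique {V : Fin 2 → MvPowerSeries (Fin 2) ℂ} (hV : NC V)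
    (hN : IsNilpotent (lin V)) : ∃! u : FMap 2, IsExp V u := by
  simp only [isExp_iff]
  exact Pool.RVX.exists_unique_exp hV hN

theorem exp_I (ε a : Fin 2 → ℂˣ) (V : Fin 2 → MvPowerSeries (Fin 2) ℂ) (h : SpaceI ε a V) :
    ∃! u : FMap 2, IsExp V u := by
  obtain ⟨h1, h2, h3⟩ := h
  refine exp_unique h1 (Pool.RVX.lin_nilp h1 (Pool.RVX.LN_of_I (a := a) h1 h2 fun i d hd => ?_))
  rw [Fin.prod_univ_two]
  exact (h3 i d hd).2

theorem exp_II (μ c : ℂˣ) (V : Fin 2 → MvPowerSeries (Fin 2) ℂ) (h : SpaceII μ c V) :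
    ∃! u : FMap 2, IsExp V u := by
  obtain ⟨h1, h2⟩ := h
  obtain ⟨h3, h4⟩ := Pool.RVX.lin_of_II (fun d hd => (h1 d hd).1) h2
  exact exp_unique h3 h4

/-- **Main theorem.** For a formally invertible map `f` in two variables over `ℂ` the following are
equivalent:
1. `f` is reversible;
2. `f` is conjugate to `s ∘ exp V` with `s` diagonal linear and `V` in one of the explicit linear
   spaces `SpaceI`, `SpaceII` of formal vector fields;
3. `f` is conjugate to `A ∘ θ⁻¹ ∘ B ∘ θ` for diagonal linear maps `A = (a_i X_i)`,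
   `B = (b_i X_i)` with entries roots of unity of 2-power order and a formally invertible `θ`
   whose `i`-th component only involves monomials `X^d` with `a^(2d) b_i^2 = 1`;
4. `f` is reversed by an element of finite order, the order being a power of two;
5. for every `k` the `k`-jet of `f` is reversible.
Moreover every vector field in these spaces has exactly one exponential. -/
theorem result : (∀ f : FMap 2, List.TFAE [
    IsReversible f,
    ExpI f ∨ ExpII f,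
    ∃ (g θ : FMap 2) (a b : Fin 2 → ℂˣ), (∃ k : ℕ, ∀ i, a i ^ 2 ^ k = 1 ∧ b i ^ 2 ^ k = 1) ∧
      (∀ (i : Fin 2) (d : Fin 2 →₀ ℕ), coeff d (θ.toFun i) ≠ 0 →
        a 0 ^ (2 * d 0) * a 1 ^ (2 * d 1) * b i ^ 2 = 1) ∧
      g * f * g⁻¹ = diag a * (θ⁻¹ * diag b * θ),
    ∃ h : FMap 2, h * f * h⁻¹ = f⁻¹ ∧ ∃ k : ℕ, h ^ 2 ^ k = 1,
    ∀ k : ℕ, ∃ h : FMap 2, ∀ (i : Fin 2) (d : Fin 2 →₀ ℕ), Finsupp.degree d ≤ k →
      coeff d ((h * f).toFun i) = coeff d ((f⁻¹ * h).toFun i)]) ∧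
    (∀ (ε a : Fin 2 → ℂˣ) (V : Fin 2 → MvPowerSeries (Fin 2) ℂ), SpaceI ε a V →
      ∃! u : FMap 2, IsExp V u) ∧
    (∀ (μ c : ℂˣ) (V : Fin 2 → MvPowerSeries (Fin 2) ℂ), SpaceII μ c V →
      ∃! u : FMap 2, IsExp V u) := by
  refine ⟨fun f => ?_, exp_I, exp_II⟩
  have hgen := Pool.Agent.Lib_helper12.RevGeneral.general 2 f
  simp only [Fin.prod_univ_two] at hgen
  tfae_have 1 ↔ 2 := by
    rw [expI_iff, expII_iff]
    exact Pool.RVX.rev_iff_exp f
  tfae_have 1 ↔ 3 := hgen.out 0 3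
  tfae_have 1 ↔ 4 := hgen.out 0 1
  tfae_have 1 ↔ 5 := hgen.out 0 5
  tfae_finish

end Pool.RVX.Candidate
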